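import Pool.Agent.W_f50700_v2.K4

/-!
Bil2: wrappers over `W_f50700_h13.Zs1` (helper13): the exponential sum.
-/

open MeasureTheory

namespace Pool.Agent.W_f50700_v2

open Pool.Agent.W_f50700_h3

/-- the exponential sum, `N = 16 n` -/
noncomputable def S4 (A n : ℕ) (θ : ℝ) : ℂ :=
  ∑ w ∈ wordsF A ((16 * n : ℕ) : ℝ), (psi n (F w) : ℂ) * e (θ * (F w : ℝ))

theorem S4_eq (A n : ℕ) : S4 A n = W_f50700_h13.S2 A n := rfl

theorem continuous_S4 (A n : ℕ) : Continuous (S4 A n) := by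
  rw [S4_eq]
  exact W_f50700_h13.continuous_S2 A n

theorem S4_add_int (A n : ℕ) (θ : ℝ) (k : ℤ) : S4 A n (θ + k) = S4 A n θ := by
  rw [S4_eq]
  exact W_f50700_h13.S2_add_int A n θ k

end Pool.Agent.W_f50700_v2
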