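import Pool.Agent.W_f50700_h3.CirB
import Pool.Agent.W_f50700_v2.Bil2

/-!
Abel (row 461, 6.6): Abel summation, exponential sums over primitive vectors.
-/

open Filter Topology

namespace Pool.Agent.W_f50700_v2

open Pool.Agent.W_f50700_h3

private theorem abel_power_bounds {s : ℝ} (hs : 1 ≤ s) (N : ℕ) :
    (N : ℝ) ^ s / s ≤ ∑ j ∈ Finset.range (N + 1), (j : ℝ) ^ (s - 1) ∧
    ∑ j ∈ Finset.range (N + 1), (j : ℝ) ^ (s - 1) ≤ (N : ℝ) ^ s / s + (N : ℝ) ^ (s - 1) := by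
  have hmono : MonotoneOn (fun x : ℝ => x ^ (s - 1)) (Set.Icc (0 : ℝ) (0 + (N : ℝ))) := by
    intro x hx y _ hxy
    exact Real.rpow_le_rpow hx.1 hxy (by linarith)
  have hint : ∫ x in (0 : ℝ)..(0 + (N : ℝ)), x ^ (s - 1) = (N : ℝ) ^ s / s := by
    rw [integral_rpow (Or.inl (by linarith)), zero_add, sub_add_cancel, Real.zero_rpow (by linarith),
      sub_zero]
  constructor
  · have h1 := hmono.integral_le_sum
    rw [hint] at h1
    rw [Finset.sum_range_succ']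
    have h2 : (0 : ℝ) ≤ ((0 : ℕ) : ℝ) ^ (s - 1) := Real.rpow_nonneg (by simp) _
    simp only [zero_add] at h1
    exact h1.trans (le_add_of_nonneg_right h2)
  · have h1 := hmono.sum_le_integral
    rw [hint] at h1
    rw [Finset.sum_range_succ]
    simp only [zero_add] at h1
    linarith

/-- partial sums of `j^(s-1)`: `s ∑_{j ≤ N} j^(s-1) / N^s → 1` -/
theorem power_sum {s : ℝ} (hs : 1 ≤ s) :
    Tendsto (fun N : ℕ => (s * ∑ j ∈ Finset.range (N + 1), (j : ℝ) ^ (s - 1)) / (N : ℝ) ^ s)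
      atTop (𝓝 1) := by
  have hs0 : 0 < s := by linarith
  have hup : Tendsto (fun N : ℕ => 1 + s * (1 / (N : ℝ))) atTop (𝓝 1) := by
    have := (tendsto_one_div_atTop_nhds_zero_nat (𝕜 := ℝ)).const_mul s
    rw [mul_zero] at this
    simpa using this.const_add 1
  refine tendsto_of_tendsto_of_tendsto_of_le_of_le' tendsto_const_nhds hup ?_ ?_
  · filter_upwards [eventually_ge_atTop 1] with N hN
    have hN0 : (0 : ℝ) < (N : ℝ) := by exact_mod_cast hN
    have hp : 0 < (N : ℝ) ^ s := Real.rpow_pos_of_pos hN0 _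
    rw [le_div_iff₀ hp, one_mul]
    have h1 := (abel_power_bounds hs N).1
    rw [div_le_iff₀ hs0] at h1
    linarith
  · filter_upwards [eventually_ge_atTop 1] with N hN
    have hN0 : (0 : ℝ) < (N : ℝ) := by exact_mod_cast hN
    have hp : 0 < (N : ℝ) ^ s := Real.rpow_pos_of_pos hN0 _
    rw [div_le_iff₀ hp]
    have h1 := (abel_power_bounds hs N).2
    have h2 : (N : ℝ) ^ (s - 1) = (N : ℝ) ^ s * (1 / (N : ℝ)) := by
      rw [Real.rpow_sub hN0, Real.rpow_one]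
      ring
    calc s * ∑ j ∈ Finset.range (N + 1), (j : ℝ) ^ (s - 1)
        ≤ s * ((N : ℝ) ^ s / s + (N : ℝ) ^ (s - 1)) := mul_le_mul_of_nonneg_left h1 hs0.le
      _ = (1 + s * (1 / (N : ℝ))) * (N : ℝ) ^ s := by
          rw [h2]
          field_simp

private theorem abel_parts (b : ℕ → ℝ) (ω : ℕ → ℂ) (N : ℕ) :
    ∑ j ∈ Finset.range N, (b j : ℂ) * ω j =
      ((∑ i ∈ Finset.range N, b i : ℝ) : ℂ) * ω N -
      ∑ j ∈ Finset.range N, ((∑ i ∈ Finset.range (j + 1), b i : ℝ) : ℂ) * (ω (j + 1) - ω j) := by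
  induction N with
  | zero => simp
  | succ N ih =>
    rw [Finset.sum_range_succ, ih, Finset.sum_range_succ (fun j =>
      ((∑ i ∈ Finset.range (j + 1), b i : ℝ) : ℂ) * (ω (j + 1) - ω j)),
      Finset.sum_range_succ (fun i => b i) N]
    push_cast
    ring

/-- Abel summation with a slowly varying weight: if `∑_{i ≤ N} b i = o(N^s)` then
`∑_{j<N} b j ω j = o(N^s)` uniformly over `|ω| ≤ 1`, `ω j = 0` for `j ≥ N`,
`|ω(j+1) - ω(j)| ≤ Λ/N` (only the last two are needed). -/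
theorem abel_zero {b : ℕ → ℝ} {s : ℝ} (hs : 1 ≤ s)
    (h : Tendsto (fun N : ℕ => (∑ i ∈ Finset.range (N + 1), b i) / (N : ℝ) ^ s) atTop (𝓝 0))
    (Λ ρ : ℝ) (hΛ : 0 < Λ) (hρ : 0 < ρ) : ∃ N0 : ℕ, ∀ N ≥ N0, ∀ ω : ℕ → ℂ,
    (∀ j, N ≤ j → ω j = 0) → (∀ j, ‖ω (j + 1) - ω j‖ ≤ Λ / N) →
    ‖∑ j ∈ Finset.range N, (b j : ℂ) * ω j‖ ≤ ρ * (N : ℝ) ^ s := by
  have hε : 0 < ρ / (2 * Λ) := by positivity
  obtain ⟨J, hJ⟩ := (Metric.tendsto_atTop.1 h) _ hε
  set J0 := max J 1 with hJ0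
  set C := ∑ j ∈ Finset.range J0, |∑ i ∈ Finset.range (j + 1), b i| with hC
  have hC0 : 0 ≤ C := Finset.sum_nonneg fun _ _ => abs_nonneg _
  obtain ⟨M, hM⟩ := exists_nat_ge (2 * Λ * C / ρ)
  refine ⟨max J0 M, fun N hN ω h0 hlip => ?_⟩
  have hN1 : J0 ≤ N := (le_max_left _ _).trans hN
  have hN2 : (M : ℝ) ≤ N := by exact_mod_cast (le_max_right _ _).trans hN
  have hN3 : 1 ≤ N := (le_max_right J 1).trans hN1
  have hN0 : (1 : ℝ) ≤ (N : ℝ) := by exact_mod_cast hN3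
  have hNpos : (0 : ℝ) < (N : ℝ) := by linarith
  have hp : 1 ≤ (N : ℝ) ^ s := Real.one_le_rpow hN0 (by linarith)
  have hS : ∀ j, J0 ≤ j → j < N → |∑ i ∈ Finset.range (j + 1), b i| ≤ ρ / (2 * Λ) * (N : ℝ) ^ s := by
    intro j hj hjN
    have h1 := hJ j ((le_max_left _ _).trans hj)
    have hj1 : 1 ≤ j := (le_max_right J 1).trans hj
    have hj0 : (0 : ℝ) < (j : ℝ) := by exact_mod_cast hj1
    have hjp : 0 < (j : ℝ) ^ s := Real.rpow_pos_of_pos hj0 _
    rw [Real.dist_eq, sub_zero, abs_div, abs_of_pos hjp, div_lt_iff₀ hjp] at h1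
    refine h1.le.trans (mul_le_mul_of_nonneg_left ?_ hε.le)
    exact Real.rpow_le_rpow hj0.le (by exact_mod_cast hjN.le) (by linarith)
  have hsum : ∑ j ∈ Finset.range N, |∑ i ∈ Finset.range (j + 1), b i| ≤
      C + N * (ρ / (2 * Λ) * (N : ℝ) ^ s) := by
    rw [← Finset.sum_range_add_sum_Ico _ hN1]
    refine add_le_add le_rfl ?_
    calc ∑ j ∈ Finset.Ico J0 N, |∑ i ∈ Finset.range (j + 1), b i|
        ≤ ∑ _j ∈ Finset.Ico J0 N, ρ / (2 * Λ) * (N : ℝ) ^ s :=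
          Finset.sum_le_sum fun j hj => hS j (Finset.mem_Ico.1 hj).1 (Finset.mem_Ico.1 hj).2
      _ = ((N - J0 : ℕ) : ℝ) * (ρ / (2 * Λ) * (N : ℝ) ^ s) := by
          rw [Finset.sum_const, Nat.card_Ico, nsmul_eq_mul]
      _ ≤ _ := by
          refine mul_le_mul_of_nonneg_right ?_ (by positivity)
          exact_mod_cast Nat.sub_le _ _
  rw [abel_parts, h0 N le_rfl, mul_zero, zero_sub, norm_neg]
  calc ‖∑ j ∈ Finset.range N, ((∑ i ∈ Finset.range (j + 1), b i : ℝ) : ℂ) * (ω (j + 1) - ω j)‖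
      ≤ ∑ j ∈ Finset.range N, |∑ i ∈ Finset.range (j + 1), b i| * (Λ / N) := by
        refine norm_sum_le_of_le _ fun j _ => ?_
        rw [norm_mul, Complex.norm_real, Real.norm_eq_abs]
        exact mul_le_mul_of_nonneg_left (hlip j) (abs_nonneg _)
    _ = (∑ j ∈ Finset.range N, |∑ i ∈ Finset.range (j + 1), b i|) * (Λ / N) := by
        rw [Finset.sum_mul]
    _ ≤ (C + N * (ρ / (2 * Λ) * (N : ℝ) ^ s)) * (Λ / N) :=
        mul_le_mul_of_nonneg_right hsum (by positivity)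
    _ = C * Λ / N + ρ / 2 * (N : ℝ) ^ s := by
        field_simp
    _ ≤ ρ / 2 * (N : ℝ) ^ s + ρ / 2 * (N : ℝ) ^ s := by
        refine add_le_add ?_ le_rfl
        have h1 : 2 * Λ * C / ρ ≤ N := hM.trans hN2
        rw [div_le_iff₀ hρ] at h1
        have h2 : C * Λ / N ≤ ρ / 2 := by
          rw [div_le_iff₀ hNpos]
          linarith
        refine h2.trans ?_
        nlinarith
    _ = ρ * (N : ℝ) ^ s := by ring

/-- the same with a limit `L`: main term `L s ∑ j^(s-1) ω j` (`power_sum`, `abel_zero` for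
`b j - L s j^(s-1)`) -/
theorem abel_limit {b : ℕ → ℝ} {s L : ℝ} (hs : 1 ≤ s)
    (h : Tendsto (fun N : ℕ => (∑ i ∈ Finset.range (N + 1), b i) / (N : ℝ) ^ s) atTop (𝓝 L))
    (Λ ρ : ℝ) (hΛ : 0 < Λ) (hρ : 0 < ρ) : ∃ N0 : ℕ, ∀ N ≥ N0, ∀ ω : ℕ → ℂ,
    (∀ j, N ≤ j → ω j = 0) → (∀ j, ‖ω (j + 1) - ω j‖ ≤ Λ / N) →
    ‖(∑ j ∈ Finset.range N, (b j : ℂ) * ω j) -
      ((L * s : ℝ) : ℂ) * ∑ j ∈ Finset.range N, (((j : ℝ) ^ (s - 1) : ℝ) : ℂ) * ω j‖ ≤
      ρ * (N : ℝ) ^ s := by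
  have h' : Tendsto (fun N : ℕ => (∑ i ∈ Finset.range (N + 1),
      (b i - L * s * (i : ℝ) ^ (s - 1))) / (N : ℝ) ^ s) atTop (𝓝 0) := by
    have h1 := h.sub ((power_sum hs).const_mul L)
    rw [mul_one, sub_self] at h1
    refine h1.congr fun N => ?_
    rw [Finset.sum_sub_distrib, ← Finset.mul_sum]
    ring
  obtain ⟨N0, hN0⟩ := abel_zero hs h' Λ ρ hΛ hρ
  refine ⟨N0, fun N hN ω h0 hlip => ?_⟩
  have h2 := hN0 N hN ω h0 hlip
  have h3 : (∑ j ∈ Finset.range N, (b j : ℂ) * ω j) -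
      ((L * s : ℝ) : ℂ) * ∑ j ∈ Finset.range N, (((j : ℝ) ^ (s - 1) : ℝ) : ℂ) * ω j =
      ∑ j ∈ Finset.range N, ((b j - L * s * (j : ℝ) ^ (s - 1) : ℝ) : ℂ) * ω j := by
    rw [Finset.mul_sum, ← Finset.sum_sub_distrib]
    refine Finset.sum_congr rfl fun j _ => ?_
    push_cast
    ring
  rw [h3]
  exact h2

/-- number of words with `F w = j` in the class `y` mod `q` -/
noncomputable def mltq (A q : ℕ) (y : ZMod q × ZMod q) (j : ℕ) : ℝ := by
  classical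
  exact (((wordsF A (j : ℝ)).filter
    (fun w => F w = j ∧ vact q (mat w) (1, 0) = y)).card : ℝ)

/-- partial sums of `mltq` -/
theorem mltq_limit {A : ℕ} (hA : 2 ≤ A) (q : ℕ) [NeZero q] (y : ZMod q × ZMod q)
    (hy : IsCoprime y.1 y.2) :
    Tendsto (fun N : ℕ => (∑ i ∈ Finset.range (N + 1), mltq A q y i) / (N : ℝ) ^ (sexp A))
      atTop (𝓝 (c0 A / nprim q)) := by
  classical
  have h := (c0_spec hA q y hy).comp tendsto_natCast_atTop_atTop
  refine h.congr fun N => ?_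
  simp only [Function.comp_apply]
  congr 1
  have h1 : ∀ w ∈ (wordsF A (N : ℝ)).filter (fun w => vact q (mat w) (1, 0) = y),
      F w ∈ Finset.range (N + 1) := by
    intro w hw
    have h2 := mem_wordsF.1 (Finset.mem_filter.1 hw).1
    rw [Finset.mem_range]
    have h3 : F w ≤ N := by exact_mod_cast h2
    omega
  have h4 := Finset.card_eq_sum_card_fiberwise h1
  have h5 : ((((wordsF A (N : ℝ)).filter (fun w => vact q (mat w) (1, 0) = y)).card : ℕ) : ℝ) =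
      ∑ i ∈ Finset.range (N + 1), mltq A q y i := by
    rw [h4]
    push_cast
    refine Finset.sum_congr rfl fun i hi => ?_
    unfold mltq
    congr 2
    ext w
    have hi' : i ≤ N := by
      rw [Finset.mem_range] at hi
      omega
    have hi2 : (i : ℝ) ≤ N := by exact_mod_cast hi'
    simp only [Finset.mem_filter, mem_wordsF]
    constructor
    · rintro ⟨⟨-, h7⟩, h8⟩
      refine ⟨?_, h8, h7⟩
      rw [h8]
    · rintro ⟨-, h7, h8⟩
      refine ⟨⟨?_, h8⟩, h7⟩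
      rw [h7]
      exact hi2
  rw [← h5]

/-- `mltq` vanishes for imprimitive classes -/
theorem mltq_zero {A : ℕ} (q : ℕ) [NeZero q] (y : ZMod q × ZMod q)
    (hy : ¬ IsCoprime y.1 y.2) (j : ℕ) : mltq A q y j = 0 := by
  classical
  unfold mltq
  rw [Nat.cast_eq_zero, Finset.card_eq_zero, Finset.filter_eq_empty_iff]
  rintro w - ⟨-, h⟩
  apply hy
  rw [← h, vact_coprime]
  exact isCoprime_one_left

end Pool.Agent.W_f50700_v2
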