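import Pool.Agent.W_f50700_v2.Msq
import Pool.Agent.W_f50700_v2.Cert5
import Pool.Agent.W_f50700_h3.Derive

/-!
Final2: the theorem for all `A ≥ 5`.
-/

open Filter Topology

namespace Pool.Agent.W_f50700_v2

open Pool.Agent.W_f50700_h3

/-- the final statements for every alphabet with critical exponent above `5/3` -/
theorem final_of_exponent {A : ℕ} (hA : 2 ≤ A) (hs : 5 / 3 < sexp A) :
    (∃ S : Set ℕ,
      Tendsto (fun N : ℕ => (({n ∈ S | 1 ≤ n ∧ n ≤ N}.ncard : ℝ)) / N) atTop (𝓝 1) ∧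
      Tendsto (fun n : ℕ => (Public.mult A n : ℝ) / Public.R A n) (atTop ⊓ 𝓟 S) (𝓝 1)) ∧
    Tendsto (fun N : ℕ => (∑ n ∈ Finset.Icc 1 N, |(Public.mult A n : ℝ) / Public.R A n - 1|) / N)
      atTop (𝓝 0) ∧
    Tendsto (fun N : ℕ => (∑ n ∈ Finset.Icc 1 N, ((Public.mult A n : ℝ) - Public.R A n) ^ 2) /
      (∑ n ∈ Finset.Icc 1 N, (Public.R A n) ^ 2)) atTop (𝓝 0) :=
  final_of_MS hA (by linarith) (mean_square2 hA hs)

theorem sexp_ge_five {A : ℕ} (hA : 5 ≤ A) : 5 / 3 < sexp A :=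
  lt_of_lt_of_le sexp_five (sexp_mono (by norm_num) hA)

end Pool.Agent.W_f50700_v2
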