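import Pool.Agent.W_f50700_h13.Zs1

/-!
K4: wrappers over `W_f50700_h13.Zs1` (helper13): the shifted weight on `ℕ`.
-/

open MeasureTheory

namespace Pool.Agent.W_f50700_v2

open Pool.Agent.W_f50700_h3

/-- the shifted weight -/
noncomputable def psi (n : ℕ) (j : ℕ) : ℝ := W_f50700_h13.ps n (j : ℤ)

theorem psi_nonneg {n : ℕ} (hn : 1 ≤ n) (j : ℕ) : 0 ≤ psi n j :=
  W_f50700_h13.ps_nonneg hn _

theorem psi_le_one {n : ℕ} (hn : 1 ≤ n) (j : ℕ) : psi n j ≤ 1 :=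
  W_f50700_h13.ps_le_one hn _

theorem psi_zero {n : ℕ} (hn : 1 ≤ n) {j : ℕ} (h : j ≤ 8 * n ∨ 16 * n ≤ j) : psi n j = 0 := by
  rcases h with h | h
  · exact W_f50700_h13.ps_eq_zero_low hn (by exact_mod_cast h)
  · exact W_f50700_h13.ps_eq_zero_high hn (by exact_mod_cast h)

theorem psi_lip {n : ℕ} (hn : 1 ≤ n) (j k : ℕ) : |psi n j - psi n k| ≤ |(j : ℝ) - k| / n := by
  have h := W_f50700_h13.ps_lip hn (j : ℤ) (k : ℤ)
  push_cast at h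
  exact h

theorem psi_ge {n : ℕ} (hn : 1 ≤ n) {j : ℕ} (h : |(j : ℝ) - 12 * n| ≤ (n : ℝ) / 8) :
    1 / 8 ≤ psi n j := by
  refine W_f50700_h13.ps_ge hn ?_
  have h1 : 8 * |(j : ℝ) - 12 * n| ≤ n := by linarith
  exact_mod_cast h1

end Pool.Agent.W_f50700_v2
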