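import Pool.Agent.W_f50700_h3.CirB
import Pool.Agent.W_f50700_h3.NewDec

/-!
Prim (row 461, 6.6): the exponential sum over primitive vectors mod `q` and their number.
-/

open Filter Topology

namespace Pool.Agent.W_f50700_v2

open Pool.Agent.W_f50700_h3

/-- the function `y ↦ e(a y_1 / q)` on `ZMod q` (value of the representative in `[0, q)`) -/
noncomputable def eq1 (q : ℕ) (a : ℤ) (y : ZMod q × ZMod q) : ℂ := e ((a : ℝ) * (y.1.val : ℝ) / q)

theorem sum_zmod {q : ℕ} [NeZero q] (h : ℕ → ℂ) :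
    ∑ x : ZMod q, h x.val = ∑ m ∈ Finset.range q, h m := by
  refine Finset.sum_nbij' (fun x : ZMod q => x.val) (fun m => (m : ZMod q)) ?_ ?_ ?_ ?_ ?_
  · intro x _
    exact Finset.mem_range.2 x.val_lt
  · intro m _
    exact Finset.mem_univ _
  · intro x _
    exact ZMod.natCast_zmod_val x
  · intro m hm
    exact ZMod.val_cast_of_lt (Finset.mem_range.1 hm)
  · intro x _
    rfl

theorem sum_dvd {q d : ℕ} (hd : d ∣ q) (hq : q ≠ 0) (g : ℕ → ℂ) :
    ∑ m ∈ Finset.range q, (if d ∣ m then g m else 0) = ∑ t ∈ Finset.range (q / d), g (d * t) := by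
  obtain ⟨c, rfl⟩ := hd
  have hd0 : 0 < d := Nat.pos_of_ne_zero (left_ne_zero_of_mul hq)
  rw [Nat.mul_div_cancel_left _ hd0, ← Finset.sum_filter]
  symm
  refine Finset.sum_bij (fun t _ => d * t) ?_ ?_ ?_ ?_
  · intro t ht
    rw [Finset.mem_filter, Finset.mem_range]
    exact ⟨Nat.mul_lt_mul_of_pos_left (Finset.mem_range.1 ht) hd0, dvd_mul_right _ _⟩
  · intro t _ t' _ h
    exact Nat.eq_of_mul_eq_mul_left hd0 h
  · intro m hm
    rw [Finset.mem_filter, Finset.mem_range] at hm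
    obtain ⟨h1, t, rfl⟩ := hm
    exact ⟨t, Finset.mem_range.2 (Nat.lt_of_mul_lt_mul_left h1), rfl⟩
  · intro t _
    rfl

theorem coprime_iff_gcd {q : ℕ} [NeZero q] (y : ZMod q × ZMod q) :
    IsCoprime y.1 y.2 ↔ Nat.gcd (Nat.gcd y.1.val y.2.val) q = 1 := by
  have h1 : ((y.1.val : ℤ) : ZMod q) = y.1 := by
    rw [Int.cast_natCast, ZMod.natCast_zmod_val]
  have h2 : ((y.2.val : ℤ) : ZMod q) = y.2 := by
    rw [Int.cast_natCast, ZMod.natCast_zmod_val]
  have h := NewDec_prim_iff q (y.1.val : ℤ) (y.2.val : ℤ)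
  rw [h1, h2] at h
  rw [h]
  constructor
  · intro hp
    by_contra hne
    obtain ⟨p, hpp, hpg⟩ := Nat.exists_prime_and_dvd hne
    refine hp p hpp (hpg.trans (Nat.gcd_dvd_right _ _)) ⟨?_, ?_⟩
    · exact Int.natCast_dvd_natCast.2 ((hpg.trans (Nat.gcd_dvd_left _ _)).trans
        (Nat.gcd_dvd_left _ _))
    · exact Int.natCast_dvd_natCast.2 ((hpg.trans (Nat.gcd_dvd_left _ _)).trans
        (Nat.gcd_dvd_right _ _))
  · intro hg p hpp hpq ⟨ha, hb⟩
    have : p ∣ 1 := by
      rw [← hg]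
      exact Nat.dvd_gcd (Nat.dvd_gcd (Int.natCast_dvd_natCast.1 ha) (Int.natCast_dvd_natCast.1 hb))
        hpq
    exact hpp.one_lt.ne' (Nat.dvd_one.1 this)

/-- Möbius inversion over the common divisors. -/
theorem sum_coprime {q : ℕ} [NeZero q]
    [DecidablePred fun y : ZMod q × ZMod q => IsCoprime y.1 y.2] (f : ℕ → ℂ) :
    ∑ y ∈ (Finset.univ : Finset (ZMod q × ZMod q)).filter (fun y => IsCoprime y.1 y.2),
      f y.1.val = ∑ d ∈ Nat.divisors q, ((ArithmeticFunction.moebius d : ℤ) : ℂ) *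
        ((q / d : ℕ) : ℂ) * ∑ t ∈ Finset.range (q / d), f (d * t) := by
  have hq : q ≠ 0 := NeZero.ne q
  have h1 : ∀ y : ZMod q × ZMod q, (if IsCoprime y.1 y.2 then f y.1.val else 0) =
      ∑ d ∈ Nat.divisors q, ((ArithmeticFunction.moebius d : ℤ) : ℂ) *
        ((if d ∣ y.1.val then f y.1.val else 0) * (if d ∣ y.2.val then 1 else 0)) := by
    intro y
    have hl : Nat.gcd (Nat.gcd y.1.val y.2.val) q ≠ 0 := fun h => hq (Nat.gcd_eq_zero_iff.1 h).2
    have h2 := NewDec_moebius _ hl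
    have h3 : Nat.divisors (Nat.gcd (Nat.gcd y.1.val y.2.val) q) =
        (Nat.divisors q).filter (fun d => d ∣ y.1.val ∧ d ∣ y.2.val) := by
      ext d
      rw [Nat.mem_divisors, Finset.mem_filter, Nat.mem_divisors, Nat.dvd_gcd_iff, Nat.dvd_gcd_iff]
      tauto
    rw [h3, Finset.sum_filter] at h2
    have h4 : (if IsCoprime y.1 y.2 then f y.1.val else 0) = f y.1.val *
        (if Nat.gcd (Nat.gcd y.1.val y.2.val) q = 1 then 1 else 0) := by
      by_cases h : IsCoprime y.1 y.2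
      · rw [if_pos h, if_pos ((coprime_iff_gcd y).1 h), mul_one]
      · rw [if_neg h, if_neg (fun h' => h ((coprime_iff_gcd y).2 h')), mul_zero]
    rw [h4, ← h2, Finset.mul_sum]
    refine Finset.sum_congr rfl fun d _ => ?_
    by_cases ha : d ∣ y.1.val
    · by_cases hb : d ∣ y.2.val
      · rw [if_pos ⟨ha, hb⟩, if_pos ha, if_pos hb]
        ring
      · rw [if_neg (fun h => hb h.2), if_neg hb]
        ring
    · rw [if_neg (fun h => ha h.1), if_neg ha]
      ring
  rw [Finset.sum_filter, Finset.sum_congr rfl (fun y _ => h1 y), Finset.sum_comm]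
  refine Finset.sum_congr rfl fun d hd => ?_
  have hdq := (Nat.mem_divisors.1 hd).1
  rw [← Finset.mul_sum, mul_assoc]
  congr 1
  rw [Fintype.sum_prod_type]
  simp only
  have h5 : ∑ x : ZMod q, ∑ x' : ZMod q,
      (if d ∣ x.val then f x.val else 0) * (if d ∣ x'.val then (1 : ℂ) else 0) =
      (∑ x : ZMod q, if d ∣ x.val then f x.val else 0) *
        ∑ x' : ZMod q, if d ∣ x'.val then (1 : ℂ) else 0 := by
    rw [Finset.sum_mul_sum]
  rw [h5, sum_zmod (fun m => if d ∣ m then f m else 0), sum_zmod (fun m => if d ∣ m then (1 : ℂ) else 0),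
    sum_dvd hdq hq f, sum_dvd hdq hq (fun _ => (1 : ℂ))]
  simp only [Finset.sum_const, Finset.card_range, nsmul_eq_mul, mul_one]
  ring

/-- `∑_{y primitive mod q} e(a y_1/q) = μ(q)` for `(a, q) = 1`.
Proof: Möbius over the common divisors `d` of `y_1, y_2, q` (`y` is not primitive iff some prime
`p ∣ q` divides both): `∑_{d ∣ q} μ(d) ∑_{y : d ∣ y} e(a y_1/q)`, and the inner sum is
`(q/d) ∑_{t mod q/d} e(a t/(q/d))`, which is `0` unless `d = q`. -/
theorem sum_prim {q : ℕ} [NeZero q] {a : ℤ} (ha : IsCoprime a (q : ℤ))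
    [DecidablePred fun y : ZMod q × ZMod q => IsCoprime y.1 y.2] :
    ∑ y ∈ (Finset.univ : Finset (ZMod q × ZMod q)).filter (fun y => IsCoprime y.1 y.2),
      eq1 q a y = ((ArithmeticFunction.moebius q : ℤ) : ℂ) := by
  have hq : q ≠ 0 := NeZero.ne q
  have h0 : ∀ y : ZMod q × ZMod q, eq1 q a y =
      (fun m : ℕ => NewDec_ch q (a * (m : ℤ))) y.1.val := by
    intro y
    unfold eq1 NewDec_ch
    congr 1
    push_cast
    ring
  rw [Finset.sum_congr rfl (fun y _ => h0 y), sum_coprime (fun m : ℕ => NewDec_ch q (a * (m : ℤ)))]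
  have h1 : ∀ d ∈ Nat.divisors q, ((ArithmeticFunction.moebius d : ℤ) : ℂ) *
        ((q / d : ℕ) : ℂ) * ∑ t ∈ Finset.range (q / d), NewDec_ch q (a * ((d * t : ℕ) : ℤ)) =
      if d = q then ((ArithmeticFunction.moebius q : ℤ) : ℂ) else 0 := by
    intro d hd
    have hdq := (Nat.mem_divisors.1 hd).1
    have hd0 : 0 < d := Nat.pos_of_mem_divisors hd
    by_cases h : d = q
    · subst h
      rw [Nat.div_self hd0, if_pos rfl, Finset.sum_range_one]
      have : NewDec_ch d (a * ((d * 0 : ℕ) : ℤ)) = 1 :=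
        NewDec_ch_dvd hq (by simp)
      rw [this]
      simp
    · rw [if_neg h]
      obtain ⟨c, rfl⟩ := hdq
      rw [Nat.mul_div_cancel_left _ hd0]
      have hc0 : c ≠ 0 := right_ne_zero_of_mul hq
      have hc1 : c ≠ 1 := by
        rintro rfl
        exact h (by rw [mul_one])
      have hc2 : 2 ≤ c := by omega
      have hcd : ¬ (c : ℤ) ∣ a := by
        intro hca
        have h2 : IsCoprime a (c : ℤ) := by
          rw [Nat.cast_mul] at ha
          exact ha.of_mul_right_right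
        have h3 : IsUnit (c : ℤ) := h2.isUnit_of_dvd' hca dvd_rfl
        rw [Int.isUnit_iff_natAbs_eq, Int.natAbs_natCast] at h3
        exact hc1 h3
      have h4 : ∀ t ∈ Finset.range c, NewDec_ch (d * c) (a * ((d * t : ℕ) : ℤ)) =
          NewDec_ch c (a * (t : ℤ)) := by
        intro t _
        have h5 := NewDec_ch_scale hq (dvd_mul_right d c) (a * (t : ℤ))
        rw [Nat.mul_div_cancel_left _ hd0] at h5
        rw [← h5]
        congr 1
        push_cast
        ring
      rw [Finset.sum_congr rfl h4, NewDec_ch_geom hc2 hcd, mul_zero]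
  rw [Finset.sum_congr rfl h1, Finset.sum_ite_eq' (Nat.divisors q) q, if_pos (Nat.mem_divisors_self q hq)]

/-- the multiplicative function `1/d^2` -/
noncomputable def invSq : ArithmeticFunction ℝ := ⟨fun d => 1 / (d : ℝ) ^ 2, by simp⟩

theorem invSq_apply (d : ℕ) : invSq d = 1 / (d : ℝ) ^ 2 := rfl

theorem invSq_mult : invSq.IsMultiplicative := by
  refine ⟨by simp [invSq_apply], fun {m n} _ => ?_⟩
  rw [invSq_apply, invSq_apply, invSq_apply]
  push_cast
  rw [mul_pow, one_div_mul_one_div]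

/-- number of primitive vectors for squarefree `q` (Chinese remainder theorem, or
`∑_{d ∣ q} μ(d) (q/d)^2 = ∏ (p^2 - 1)`) -/
theorem nprim_eq_psi2 {q : ℕ} (hq : Squarefree q) : (nprim q : ℝ) = psi2 q := by
  classical
  have hq0 : q ≠ 0 := hq.ne_zero
  have : NeZero q := ⟨hq0⟩
  have h1 : (nprim q : ℂ) = ∑ d ∈ Nat.divisors q, ((ArithmeticFunction.moebius d : ℤ) : ℂ) *
        ((q / d : ℕ) : ℂ) * ((q / d : ℕ) : ℂ) := by
    have h2 := sum_coprime (q := q) (fun _ => (1 : ℂ))
    simp only [Finset.sum_const, nsmul_eq_mul, mul_one, Finset.card_range] at h2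
    rw [← h2]
    unfold nprim
    rw [Nat.card_eq_fintype_card, Fintype.card_subtype]
  have h3 : (nprim q : ℝ) = ∑ d ∈ Nat.divisors q, ((ArithmeticFunction.moebius d : ℤ) : ℝ) *
        ((q / d : ℕ) : ℝ) * ((q / d : ℕ) : ℝ) := by
    have h4 : ((nprim q : ℝ) : ℂ) = ((∑ d ∈ Nat.divisors q,
        ((ArithmeticFunction.moebius d : ℤ) : ℝ) * ((q / d : ℕ) : ℝ) * ((q / d : ℕ) : ℝ) : ℝ) : ℂ) := by
      push_cast
      exact h1
    exact Complex.ofReal_injective h4
  rw [h3]
  have h5 := ArithmeticFunction.IsMultiplicative.prodPrimeFactors_one_sub_of_squarefree invSq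
    invSq_mult hq
  have h6 : ∀ d ∈ Nat.divisors q, ((ArithmeticFunction.moebius d : ℤ) : ℝ) *
      ((q / d : ℕ) : ℝ) * ((q / d : ℕ) : ℝ) =
      (q : ℝ) ^ 2 * (((ArithmeticFunction.moebius d : ℤ) : ℝ) * invSq d) := by
    intro d hd
    have hd0 : (d : ℝ) ≠ 0 := by exact_mod_cast (Nat.pos_of_mem_divisors hd).ne'
    rw [Nat.cast_div (Nat.mem_divisors.1 hd).1 hd0, invSq_apply]
    field_simp
  rw [Finset.sum_congr rfl h6, ← Finset.mul_sum, ← h5]
  unfold psi2
  have h7 : (q : ℝ) ^ 2 = ∏ p ∈ q.primeFactors, (p : ℝ) ^ 2 := by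
    conv_lhs => rw [← Nat.prod_primeFactors_of_squarefree hq]
    push_cast
    rw [Finset.prod_pow]
  rw [h7, ← Finset.prod_mul_distrib]
  refine Finset.prod_congr rfl fun p hp => ?_
  have hp0 : (p : ℝ) ≠ 0 := by exact_mod_cast (Nat.prime_of_mem_primeFactors hp).ne_zero
  rw [invSq_apply]
  field_simp

/-- the combination that occurs: for all `q ≥ 1` (both sides vanish if `q` is not squarefree) -/
theorem sum_prim_div {q : ℕ} [NeZero q] {a : ℤ} (ha : IsCoprime a (q : ℤ))
    [DecidablePred fun y : ZMod q × ZMod q => IsCoprime y.1 y.2] :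
    (∑ y ∈ (Finset.univ : Finset (ZMod q × ZMod q)).filter (fun y => IsCoprime y.1 y.2),
      eq1 q a y) * ((1 / (nprim q : ℝ) : ℝ) : ℂ) =
      ((((ArithmeticFunction.moebius q : ℤ) : ℝ) / psi2 q : ℝ) : ℂ) := by
  rw [sum_prim ha]
  by_cases hq : Squarefree q
  · rw [nprim_eq_psi2 hq]
    push_cast
    ring
  · rw [ArithmeticFunction.moebius_eq_zero_of_not_squarefree hq]
    simp

end Pool.Agent.W_f50700_v2
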