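import Pool.Agent.W_f50700_v2.Abel
import Pool.Agent.W_f50700_v2.Prim

/-!
Maj (row 461, 6.6): the major arcs.
-/

open Filter Topology

namespace Pool.Agent.W_f50700_v2

open Pool.Agent.W_f50700_h3

/-- the main term `V(β) = ∑_{j<16n} psi(j) j^(s-1) e(j β)` -/
noncomputable def Vm (A n : ℕ) (β : ℝ) : ℂ :=
  ∑ j ∈ Finset.range (16 * n), ((psi n j * (j : ℝ) ^ (sexp A - 1) : ℝ) : ℂ) * e ((j : ℝ) * β)

/-- the weight `psi` as `WtData` (`N = 16 n`, `B = 16`) -/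
noncomputable def psiD (n : ℕ) (hn : 1 ≤ n) : WtData where
  N := 16 * n
  B := 16
  ω := psi n
  hN := by omega
  hB := by norm_num
  bound := by
    intro j
    rw [abs_of_nonneg (psi_nonneg hn j)]
    exact psi_le_one hn j
  zero := by
    intro j hj
    exact psi_zero hn (Or.inr hj)
  lip := by
    intro j k
    have hn0 : (0 : ℝ) < n := by exact_mod_cast hn
    refine (psi_lip hn j k).trans (le_of_eq ?_)
    push_cast
    field_simp

theorem maj_e_add_int (x : ℝ) (k : ℤ) : e (x + k) = e x := by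
  rw [Pool.Agent.W_f50700_h13.e_add, Pool.Agent.W_f50700_h13.e_int, mul_one]

theorem maj_e_eq {q : ℕ} (hq : 0 < q) (a : ℤ) (m : ℕ) (β : ℝ) :
    e (((a : ℝ) / q + β) * (m : ℝ)) = e ((a : ℝ) * ((m % q : ℕ) : ℝ) / q) * e ((m : ℝ) * β) := by
  have hq0 : (0 : ℝ) < q := by exact_mod_cast hq
  obtain ⟨d, hd⟩ : ∃ d : ℕ, m = m % q + q * d := ⟨m / q, (Nat.mod_add_div m q).symm⟩
  have h1 : ((m : ℝ)) = ((m % q : ℕ) : ℝ) + q * (d : ℝ) := by exact_mod_cast hd
  have h2 : ((a : ℝ) / q + β) * (m : ℝ) =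
      ((a : ℝ) * ((m % q : ℕ) : ℝ) / q + (m : ℝ) * β) + ((a * (d : ℤ) : ℤ) : ℝ) := by
    have h3 : (a : ℝ) / q * (m : ℝ) = (a : ℝ) * ((m % q : ℕ) : ℝ) / q + a * (d : ℝ) := by
      conv_lhs => rw [h1]
      field_simp
    rw [add_mul, h3]
    push_cast
    ring
  rw [h2, maj_e_add_int, Pool.Agent.W_f50700_h13.e_add]

/-- one class -/
theorem maj_class {A n q : ℕ} (hn : 1 ≤ n) (y : ZMod q × ZMod q) (f : ℕ → ℂ)
    (hf : ∀ j, 16 * n ≤ j → f j = 0) [DecidableEq (ZMod q × ZMod q)] :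
    ∑ w ∈ (wordsF A ((16 * n : ℕ) : ℝ)).filter (fun w => vact q (mat w) (1, 0) = y), f (F w) =
      ∑ j ∈ Finset.range (16 * n), (mltq A q y j : ℂ) * f j := by
  classical
  set W := (wordsF A ((16 * n : ℕ) : ℝ)).filter (fun w => vact q (mat w) (1, 0) = y) with hW
  have h1 : ∑ w ∈ W, f (F w) = ∑ w ∈ W.filter (fun w => F w < 16 * n), f (F w) := by
    refine Eq.trans (Finset.sum_congr rfl fun w _ => ?_) (Finset.sum_filter _ _).symm
    split_ifs with h
    · rfl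
    · exact hf _ (by omega)
  rw [h1, ← Finset.sum_fiberwise_of_maps_to (t := Finset.range (16 * n)) (g := fun w => F w)
    (fun w hw => by
      rw [Finset.mem_filter] at hw
      exact Finset.mem_range.2 hw.2)]
  refine Finset.sum_congr rfl fun j hj => ?_
  rw [Finset.mem_range] at hj
  have h2 : (W.filter (fun w => F w < 16 * n)).filter (fun w => F w = j) =
      (wordsF A (j : ℝ)).filter (fun w => F w = j ∧ vact q (mat w) (1, 0) = y) := by
    ext w
    rw [Finset.mem_filter, Finset.mem_filter, hW, Finset.mem_filter, Finset.mem_filter, mem_wordsF,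
      mem_wordsF]
    constructor
    · rintro ⟨⟨⟨_, h3⟩, _⟩, h4⟩
      exact ⟨by rw [h4], h4, h3⟩
    · rintro ⟨_, h4, h3⟩
      refine ⟨⟨⟨?_, h3⟩, by omega⟩, h4⟩
      rw [h4]
      exact_mod_cast hj.le
  rw [h2, Finset.sum_congr rfl (g := fun _ => f j) (fun w hw => by
    rw [(Finset.mem_filter.1 hw).2.1]), Finset.sum_const, nsmul_eq_mul]
  congr 1
  unfold mltq
  rw [Complex.ofReal_natCast]
  congr!

/-- `S4` by classes mod `q`: `S4(a/q + β) = ∑_y e(a y_1/q) ∑_{j<16n} mltq y j psi(j) e(j β)` -/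
theorem S4_classes {A : ℕ} {n : ℕ} (hn : 1 ≤ n) (q : ℕ) [NeZero q] (a : ℤ) (β : ℝ) :
    S4 A n ((a : ℝ) / q + β) = ∑ y : ZMod q × ZMod q, eq1 q a y *
      ∑ j ∈ Finset.range (16 * n), (mltq A q y j : ℂ) * ((psi n j : ℂ) * e ((j : ℝ) * β)) := by
  classical
  have hq : 0 < q := Nat.pos_of_ne_zero (NeZero.ne q)
  unfold S4
  rw [← Finset.sum_fiberwise (s := wordsF A ((16 * n : ℕ) : ℝ))
    (g := fun w => vact q (mat w) (1, 0))]
  refine Finset.sum_congr rfl fun y _ => ?_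
  rw [← maj_class hn y (fun j => (psi n j : ℂ) * e ((j : ℝ) * β)) (fun j hj => by
    simp only [psi_zero hn (Or.inr hj), Complex.ofReal_zero, zero_mul]), Finset.mul_sum]
  refine Finset.sum_congr rfl fun w hw => ?_
  have h1 := (Finset.mem_filter.1 hw).2
  have h2 : y.1.val = F w % q := by
    rw [← h1]
    unfold vact
    simp only [mul_one, mul_zero, add_zero]
    exact ZMod.val_natCast q (F w)
  rw [maj_e_eq hq]
  unfold eq1
  rw [h2]
  ring

theorem maj_norm_e_sub_one (x : ℝ) : ‖e x - 1‖ ≤ 2 * Real.pi * |x| := by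
  have h1 := Real.norm_exp_I_mul_ofReal_sub_one_le (x := 2 * Real.pi * x)
  have h2 : Complex.exp (Complex.I * ((2 * Real.pi * x : ℝ) : ℂ)) = e x := by
    unfold e
    congr 1
    push_cast
    ring
  rw [h2, Real.norm_eq_abs, abs_mul, abs_of_pos (by positivity : (0 : ℝ) < 2 * Real.pi)] at h1
  exact h1

/-- variation of the weight -/
theorem maj_var {n : ℕ} (hn : 1 ≤ n) {W β : ℝ} (hβ : |β| ≤ W / (16 * n)) (j : ℕ) :
    ‖(psi n (j + 1) : ℂ) * e (((j + 1 : ℕ) : ℝ) * β) - (psi n j : ℂ) * e ((j : ℝ) * β)‖ ≤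
      (16 + 2 * Real.pi * W) / ((16 * n : ℕ) : ℝ) := by
  have hn0 : (0 : ℝ) < n := by exact_mod_cast hn
  have h1 : e (((j + 1 : ℕ) : ℝ) * β) = e ((j : ℝ) * β) * e β := by
    rw [← Pool.Agent.W_f50700_h13.e_add]
    congr 1
    push_cast
    ring
  have h2 : (psi n (j + 1) : ℂ) * e (((j + 1 : ℕ) : ℝ) * β) - (psi n j : ℂ) * e ((j : ℝ) * β) =
      (((psi n (j + 1) - psi n j : ℝ) : ℂ)) * e (((j + 1 : ℕ) : ℝ) * β) +
      (psi n j : ℂ) * e ((j : ℝ) * β) * (e β - 1) := by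
    rw [h1]
    push_cast
    ring
  rw [h2]
  have h3 : ‖(((psi n (j + 1) - psi n j : ℝ) : ℂ)) * e (((j + 1 : ℕ) : ℝ) * β)‖ ≤ 1 / n := by
    rw [norm_mul, Pool.Agent.W_f50700_h13.norm_e, mul_one, Complex.norm_real, Real.norm_eq_abs]
    have h4 := psi_lip hn (j + 1) j
    have h5 : |((j + 1 : ℕ) : ℝ) - (j : ℝ)| = 1 := by
      push_cast
      rw [add_sub_cancel_left, abs_one]
    rwa [h5] at h4
  have h4 : ‖(psi n j : ℂ) * e ((j : ℝ) * β) * (e β - 1)‖ ≤ 2 * Real.pi * (W / (16 * n)) := by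
    rw [norm_mul, norm_mul, Pool.Agent.W_f50700_h13.norm_e, mul_one, Complex.norm_real,
      Real.norm_eq_abs, abs_of_nonneg (psi_nonneg hn j)]
    calc psi n j * ‖e β - 1‖ ≤ 1 * (2 * Real.pi * |β|) :=
          mul_le_mul (psi_le_one hn j) (maj_norm_e_sub_one β) (norm_nonneg _) zero_le_one
      _ = 2 * Real.pi * |β| := one_mul _
      _ ≤ 2 * Real.pi * (W / (16 * n)) := mul_le_mul_of_nonneg_left hβ (by positivity)
  refine (norm_add_le _ _).trans ((add_le_add h3 h4).trans (le_of_eq ?_))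
  push_cast
  field_simp

/-- `S4` on the major arcs.  `abel_limit` for each `y` with `ω j = psi n j * e(j β)`
(`|ω(j+1) - ω(j)| ≤ (16 + 32 π W)/(16 n)`), `mltq_limit`, `mltq_zero`, `sum_prim_div`. -/
theorem S4_major {A : ℕ} (hA : 2 ≤ A) (h1 : 1 ≤ sexp A) (Q0 : ℕ) (W ρ : ℝ) (hW : 0 < W)
    (hρ : 0 < ρ) : ∃ n0 : ℕ, ∀ n ≥ n0, ∀ q : ℕ, 1 ≤ q → q ≤ Q0 → ∀ a : ℤ,
    IsCoprime a (q : ℤ) → ∀ β : ℝ, |β| ≤ W / (16 * n) →
    ‖S4 A n ((a : ℝ) / q + β) - ((((ArithmeticFunction.moebius q : ℤ) : ℝ) / psi2 q *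
      (sexp A * c0 A) : ℝ) : ℂ) * Vm A n β‖ ≤ ρ * (n : ℝ) ^ (sexp A) := by
  classical
  set s := sexp A with hs
  have hs2 : s ≤ 2 := sexp_le_two (by omega)
  set Λ : ℝ := 16 + 2 * Real.pi * W with hΛ
  have hΛ0 : 0 < Λ := by positivity
  set ρ' : ℝ := ρ / (256 * ((Q0 : ℝ) ^ 2 + 1)) with hρ'
  have hρ'0 : 0 < ρ' := by positivity
  -- the statement for one `q`
  have key : ∀ q ∈ Finset.Icc 1 Q0, ∀ᶠ n : ℕ in atTop, ∀ a : ℤ,
      IsCoprime a (q : ℤ) → ∀ β : ℝ, |β| ≤ W / (16 * n) →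
      ‖S4 A n ((a : ℝ) / q + β) - ((((ArithmeticFunction.moebius q : ℤ) : ℝ) / psi2 q *
        (s * c0 A) : ℝ) : ℂ) * Vm A n β‖ ≤ ρ * (n : ℝ) ^ s := by
    intro q hq
    rw [Finset.mem_Icc] at hq
    have hNe : NeZero q := ⟨by omega⟩
    have hall : ∀ y : ZMod q × ZMod q, ∀ᶠ n : ℕ in atTop, IsCoprime y.1 y.2 →
        ∀ ω : ℕ → ℂ, (∀ j, 16 * n ≤ j → ω j = 0) →
        (∀ j, ‖ω (j + 1) - ω j‖ ≤ Λ / ((16 * n : ℕ) : ℝ)) →
        ‖(∑ j ∈ Finset.range (16 * n), (mltq A q y j : ℂ) * ω j) -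
          ((c0 A / nprim q * s : ℝ) : ℂ) *
            ∑ j ∈ Finset.range (16 * n), (((j : ℝ) ^ (s - 1) : ℝ) : ℂ) * ω j‖ ≤
          ρ' * ((16 * n : ℕ) : ℝ) ^ s := by
      intro y
      by_cases hy : IsCoprime y.1 y.2
      · obtain ⟨N0, hN0⟩ := abel_limit h1 (mltq_limit hA q y hy) Λ ρ' hΛ0 hρ'0
        filter_upwards [eventually_ge_atTop N0] with n hn _ ω hω1 hω2
        exact hN0 (16 * n) (by omega) ω hω1 hω2
      · exact Eventually.of_forall fun n h => absurd h hy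
    have hall' := Filter.eventually_all.2 hall
    filter_upwards [hall', eventually_ge_atTop 1] with n hn hn1 a ha β hβ
    have hn0 : (0 : ℝ) < n := by exact_mod_cast hn1
    set ω : ℕ → ℂ := fun j => (psi n j : ℂ) * e ((j : ℝ) * β) with hω
    have hω1 : ∀ j, 16 * n ≤ j → ω j = 0 := by
      intro j hj
      simp only [hω, psi_zero hn1 (Or.inr hj), Complex.ofReal_zero, zero_mul]
    have hω2 : ∀ j, ‖ω (j + 1) - ω j‖ ≤ Λ / ((16 * n : ℕ) : ℝ) := fun j => maj_var hn1 hβ j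
    have hV : Vm A n β = ∑ j ∈ Finset.range (16 * n), (((j : ℝ) ^ (s - 1) : ℝ) : ℂ) * ω j := by
      unfold Vm
      refine Finset.sum_congr rfl fun j _ => ?_
      simp only [hω]
      push_cast
      ring
    set P := (Finset.univ : Finset (ZMod q × ZMod q)).filter (fun y => IsCoprime y.1 y.2) with hP
    have hS : S4 A n ((a : ℝ) / q + β) = ∑ y ∈ P, eq1 q a y *
        ∑ j ∈ Finset.range (16 * n), (mltq A q y j : ℂ) * ω j := by
      rw [S4_classes hn1 q a β, hP, Finset.sum_filter]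
      refine Finset.sum_congr rfl fun y _ => ?_
      split_ifs with hy
      · rfl
      · rw [Finset.sum_eq_zero (fun j _ => by
          rw [mltq_zero q y hy j, Complex.ofReal_zero, zero_mul]), mul_zero]
    have hM : ((((ArithmeticFunction.moebius q : ℤ) : ℝ) / psi2 q * (s * c0 A) : ℝ) : ℂ) *
        Vm A n β = ∑ y ∈ P, eq1 q a y * (((c0 A / nprim q * s : ℝ) : ℂ) * Vm A n β) := by
      rw [← Finset.sum_mul]
      have h2 := sum_prim_div ha
      have h3 : ((((ArithmeticFunction.moebius q : ℤ) : ℝ) / psi2 q * (s * c0 A) : ℝ) : ℂ) =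
          ((((ArithmeticFunction.moebius q : ℤ) : ℝ) / psi2 q : ℝ) : ℂ) * ((s * c0 A : ℝ) : ℂ) := by
        push_cast
        ring
      rw [h3, ← h2]
      push_cast
      ring
    rw [hS, hM, ← Finset.sum_sub_distrib]
    have hterm : ∀ y ∈ P, ‖eq1 q a y * ∑ j ∈ Finset.range (16 * n), (mltq A q y j : ℂ) * ω j -
        eq1 q a y * (((c0 A / nprim q * s : ℝ) : ℂ) * Vm A n β)‖ ≤
        ρ' * ((16 * n : ℕ) : ℝ) ^ s := by
      intro y hy
      rw [← mul_sub, norm_mul]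
      have h2 : ‖eq1 q a y‖ = 1 := Pool.Agent.W_f50700_h13.norm_e _
      rw [h2, one_mul, hV]
      exact hn y (Finset.mem_filter.1 hy).2 ω hω1 hω2
    refine (norm_sum_le _ _).trans ((Finset.sum_le_sum hterm).trans ?_)
    rw [Finset.sum_const, nsmul_eq_mul]
    have hcard : (P.card : ℝ) ≤ (Q0 : ℝ) ^ 2 + 1 := by
      have h2 : P.card ≤ q * q := by
        refine (Finset.card_le_univ _).trans ?_
        rw [Fintype.card_prod, ZMod.card]
      have h3 : (q * q : ℕ) ≤ Q0 * Q0 := Nat.mul_le_mul hq.2 hq.2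
      have h4 : (P.card : ℝ) ≤ ((Q0 * Q0 : ℕ) : ℝ) := by exact_mod_cast h2.trans h3
      push_cast at h4
      nlinarith
    have h16 : ((16 * n : ℕ) : ℝ) ^ s ≤ 256 * (n : ℝ) ^ s := by
      push_cast
      rw [Real.mul_rpow (by norm_num) hn0.le]
      refine mul_le_mul_of_nonneg_right ?_ (by positivity)
      calc (16 : ℝ) ^ s ≤ (16 : ℝ) ^ (2 : ℝ) :=
            Real.rpow_le_rpow_of_exponent_le (by norm_num) hs2
        _ = 256 := by norm_num
    calc (P.card : ℝ) * (ρ' * ((16 * n : ℕ) : ℝ) ^ s)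
        ≤ ((Q0 : ℝ) ^ 2 + 1) * (ρ' * (256 * (n : ℝ) ^ s)) := by
          refine mul_le_mul hcard (mul_le_mul_of_nonneg_left h16 hρ'0.le) (by positivity)
            (by positivity)
      _ = ρ * (n : ℝ) ^ s := by
          rw [hρ']
          field_simp
  have hfin := (Filter.eventually_all_finset (Finset.Icc 1 Q0)).2 key
  obtain ⟨n0, hn0⟩ := eventually_atTop.1 hfin
  exact ⟨n0, fun n hn q hq1 hq2 => hn0 n hn q (Finset.mem_Icc.2 ⟨hq1, hq2⟩)⟩

/-- distance of distinct fractions -/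
theorem maj_frac {q q' a' : ℕ} {a : ℤ} (hq : 1 ≤ q) (hq' : 1 ≤ q') (ha : IsCoprime a (q : ℤ))
    (ha' : Nat.Coprime a' q') (hlt : a' < q') :
    (q' = q ∧ (a' : ℤ) = a % q) ∨ 1 / ((q : ℝ) * q') ≤ dist1 ((a : ℝ) / q - a' / q') := by
  have hq0 : (0 : ℝ) < q := by exact_mod_cast hq
  have hq0' : (0 : ℝ) < q' := by exact_mod_cast hq'
  set x : ℝ := (a : ℝ) / q - a' / q' with hx
  set k : ℤ := round x with hk
  set z : ℤ := a * q' - a' * q - k * (q * q') with hz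
  have hxz : x - k = (z : ℝ) / ((q : ℝ) * q') := by
    rw [hx, hz]
    push_cast
    field_simp
  by_cases h0 : z = 0
  · left
    have h1 : a * q' = (a' + k * q') * q := by
      rw [hz] at h0
      linear_combination h0
    have h2 : (q : ℤ) ∣ q' := by
      have h3 : (q : ℤ) ∣ a * q' := by rw [h1]; exact Dvd.intro_left _ rfl
      exact ha.symm.dvd_of_dvd_mul_left h3
    have h3 : (q' : ℤ) ∣ q := by
      have h4 : (q' : ℤ) ∣ (a' + k * q') * q := by rw [← h1]; exact Dvd.intro_left _ rfl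
      have h5 : IsCoprime (q' : ℤ) ((a' : ℤ) + k * q') := by
        have := (Nat.isCoprime_iff_coprime.2 ha'.symm : IsCoprime (q' : ℤ) (a' : ℤ))
        exact this.add_mul_right_right k
      exact h5.dvd_of_dvd_mul_left h4
    have h4 : q' = q := Nat.dvd_antisymm (Int.natCast_dvd_natCast.1 h3)
      (Int.natCast_dvd_natCast.1 h2)
    refine ⟨h4, ?_⟩
    subst h4
    have hqz : (q' : ℤ) ≠ 0 := by exact_mod_cast (by omega : q' ≠ 0)
    have h5 : a = a' + k * q' := mul_right_cancel₀ hqz h1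
    rw [h5, Int.add_mul_emod_self_right]
    exact_mod_cast (Nat.mod_eq_of_lt hlt).symm
  · right
    unfold dist1
    rw [← hk, hxz, abs_div, abs_of_pos (by positivity : 0 < (q : ℝ) * q')]
    apply div_le_div_of_nonneg_right _ (by positivity)
    have : 1 ≤ |z| := Int.one_le_abs h0
    exact_mod_cast this

/-- the model on the major arcs: `CirB_Mhat_eq`; the terms `a'/q' ≠ a/q` are
`≤ C n^(s-1) / dist1(a/q - a'/q' + β) ≤ 2 C Q0^2 n^(s-1)` by `V_bound`; the term `a' ≡ a` is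
the main term.  (`Mhat` uses `0 ≤ a' < q'`; `θ` is any real number with `θ = a/q + β`.) -/
theorem model_major {A : ℕ} (hA : 2 ≤ A) (h1 : 1 ≤ sexp A) (Q0 : ℕ) (W ρ : ℝ) (hW : 0 < W)
    (hρ : 0 < ρ) : ∃ n0 : ℕ, ∀ n ≥ n0, ∀ hn : 1 ≤ n, ∀ q : ℕ, 1 ≤ q → q ≤ Q0 → ∀ a : ℤ,
    IsCoprime a (q : ℤ) → ∀ β : ℝ, |β| ≤ W / (16 * n) →
    ‖Mhat A Q0 (psiD n hn) ((a : ℝ) / q + β) -
      ((((ArithmeticFunction.moebius q : ℤ) : ℝ) / psi2 q *
      (sexp A * c0 A) : ℝ) : ℂ) * Vm A n β‖ ≤ ρ * (n : ℝ) ^ (sexp A) := by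
  classical
  have hs2 : sexp A ≤ 2 := sexp_le_two (by omega)
  obtain ⟨CV, hCV, hV⟩ := V_bound h1 hs2 16 (by norm_num)
  have hK0 : 0 ≤ sexp A * c0 A := mul_nonneg (by linarith) (c0_pos A).le
  set P := CirB_P Q0 with hP
  set Cc : ℝ := (P.card : ℝ) * (sexp A * c0 A * (CV * 16 * (2 * (Q0 : ℝ) ^ 2))) with hCc
  -- `n` large
  obtain ⟨n1, hn1⟩ := exists_nat_gt (max (W * (Q0 : ℝ) ^ 2) (Cc / ρ))
  refine ⟨n1, fun n hnn hn q hq1 hq2 a ha β hβ => ?_⟩
  have hn0 : (0 : ℝ) < n := by exact_mod_cast hn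
  have hnr : (n1 : ℝ) ≤ n := by exact_mod_cast hnn
  have hnW : W * (Q0 : ℝ) ^ 2 ≤ n := ((le_max_left _ _).trans hn1.le).trans hnr
  have hnC : Cc / ρ ≤ n := ((le_max_right _ _).trans hn1.le).trans hnr
  have hq0 : (0 : ℝ) < q := by exact_mod_cast hq1
  have hQq : (q : ℝ) ≤ Q0 := by exact_mod_cast hq2
  have hQ0 : (0 : ℝ) < Q0 := hq0.trans_le hQq
  have hqz : (q : ℤ) ≠ 0 := by exact_mod_cast (by omega : q ≠ 0)
  -- the index of the main term
  set b : ℕ := (a % q).toNat with hb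
  have hb' : (b : ℤ) = a % q := Int.toNat_of_nonneg (Int.emod_nonneg _ hqz)
  have hbq : b < q := by
    have := Int.emod_lt_of_pos a (by omega : (0 : ℤ) < q)
    rw [← hb'] at this
    exact_mod_cast this
  have hbc : Nat.Coprime b q := by
    rw [← Nat.isCoprime_iff_coprime, hb']
    have h2 : a % q = a + (-(a / q)) * q := by
      have := Int.emod_add_mul_ediv a q
      linarith
    rw [h2]
    exact ha.add_mul_right_left _
  set p0 : Σ _ : ℕ, ℕ := ⟨q, b⟩ with hp0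
  have hp0P : p0 ∈ P := by
    rw [hP, CirB_P, Finset.mem_sigma, Finset.mem_Icc, Finset.mem_filter, Finset.mem_range]
    exact ⟨⟨hq1, hq2⟩, hbq, hbc⟩
  rw [CirB_Mhat_eq, ← Finset.add_sum_erase P _ hp0P]
  -- the main term
  have hmain : ∑ j ∈ Finset.range (psiD n hn).N,
      (((psiD n hn).ω j * (j : ℝ) ^ (sexp A - 1) : ℝ) : ℂ) *
        e ((j : ℝ) * ((a : ℝ) / q + β - (p0.2 : ℝ) / p0.1)) = Vm A n β := by
    unfold Vm
    refine Finset.sum_congr rfl fun j _ => ?_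
    congr 1
    have h2 : (a : ℝ) = b + q * ((a / q : ℤ) : ℝ) := by
      have h3 := Int.emod_add_mul_ediv a q
      rw [← hb'] at h3
      exact_mod_cast h3.symm
    have h3 : (j : ℝ) * ((a : ℝ) / q + β - (p0.2 : ℝ) / p0.1) =
        (j : ℝ) * β + (((j : ℤ) * (a / q) : ℤ) : ℝ) := by
      show (j : ℝ) * ((a : ℝ) / q + β - (b : ℝ) / q) = _
      have h4 : (a : ℝ) / q = (b : ℝ) / q + ((a / q : ℤ) : ℝ) := by
        rw [h2]
        field_simp
      rw [h4]
      push_cast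
      ring
    rw [h3, maj_e_add_int]
  rw [hmain]
  have hcoef : ((sexp A * c0 A * (((ArithmeticFunction.moebius p0.1 : ℤ) : ℝ) / psi2 p0.1) : ℝ)
      : ℂ) = ((((ArithmeticFunction.moebius q : ℤ) : ℝ) / psi2 q * (sexp A * c0 A) : ℝ) : ℂ) := by
    show ((sexp A * c0 A * (((ArithmeticFunction.moebius q : ℤ) : ℝ) / psi2 q) : ℝ) : ℂ) = _
    congr 1
    ring
  rw [hcoef, add_sub_cancel_left]
  -- the other terms
  have hterm : ∀ p ∈ P.erase p0,
      ‖((sexp A * c0 A * (((ArithmeticFunction.moebius p.1 : ℤ) : ℝ) / psi2 p.1) : ℝ) : ℂ) *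
        ∑ j ∈ Finset.range (psiD n hn).N,
          (((psiD n hn).ω j * (j : ℝ) ^ (sexp A - 1) : ℝ) : ℂ) *
          e ((j : ℝ) * ((a : ℝ) / q + β - (p.2 : ℝ) / p.1))‖ ≤
      sexp A * c0 A * (CV * 16 * (2 * (Q0 : ℝ) ^ 2)) * (n : ℝ) ^ (sexp A - 1) := by
    rintro ⟨q', a'⟩ hp
    rw [Finset.mem_erase, hP, CirB_P, Finset.mem_sigma, Finset.mem_Icc, Finset.mem_filter,
      Finset.mem_range] at hp
    obtain ⟨hne, ⟨hq1', hq2'⟩, ha1, ha2⟩ := hp
    simp only at hq1' hq2' ha1 ha2 ⊢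
    have hq0' : (0 : ℝ) < q' := by exact_mod_cast hq1'
    have hQq' : (q' : ℝ) ≤ Q0 := by exact_mod_cast hq2'
    have hdist : 1 / (2 * (Q0 : ℝ) ^ 2) ≤ dist1 ((a : ℝ) / q + β - (a' : ℝ) / q') := by
      rcases maj_frac hq1 hq1' ha ha2 ha1 with ⟨e1, e2⟩ | h2
      · exfalso
        apply hne
        rw [hp0]
        subst e1
        have : a' = b := by
          rw [← hb'] at e2
          exact_mod_cast e2
        rw [this]
      · have h3 : 1 / (Q0 : ℝ) ^ 2 ≤ 1 / ((q : ℝ) * q') := by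
          apply one_div_le_one_div_of_le (by positivity)
          nlinarith
        have h4 : |dist1 ((a : ℝ) / q + β - (a' : ℝ) / q') - dist1 ((a : ℝ) / q - (a' : ℝ) / q')| ≤
            |β| := by
          refine (Pool.Agent.W_f50700_h13.dist1_lip _ _).trans (le_of_eq ?_)
          congr 1
          ring
        have h5 : |β| ≤ 1 / (2 * (Q0 : ℝ) ^ 2) := by
          refine hβ.trans ?_
          rw [div_le_div_iff₀ (by positivity) (by positivity)]
          nlinarith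
        have h6 := (abs_le.1 h4).1
        have h7 : 1 / (Q0 : ℝ) ^ 2 = 1 / (2 * (Q0 : ℝ) ^ 2) + 1 / (2 * (Q0 : ℝ) ^ 2) := by
          field_simp
          norm_num
        linarith
    have hd0 : 0 < dist1 ((a : ℝ) / q + β - (a' : ℝ) / q') :=
      lt_of_lt_of_le (by positivity) hdist
    have h2 := hV (psiD n hn) rfl _ hd0
    have h3 : CV * ((psiD n hn).N : ℝ) ^ (sexp A - 1) /
        dist1 ((a : ℝ) / q + β - (a' : ℝ) / q') ≤
        CV * 16 * (2 * (Q0 : ℝ) ^ 2) * (n : ℝ) ^ (sexp A - 1) := by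
      have h4 : ((psiD n hn).N : ℝ) ^ (sexp A - 1) ≤ 16 * (n : ℝ) ^ (sexp A - 1) := by
        show (((16 * n : ℕ) : ℝ)) ^ (sexp A - 1) ≤ _
        push_cast
        rw [Real.mul_rpow (by norm_num) hn0.le]
        refine mul_le_mul_of_nonneg_right ?_ (by positivity)
        calc (16 : ℝ) ^ (sexp A - 1) ≤ (16 : ℝ) ^ (1 : ℝ) :=
              Real.rpow_le_rpow_of_exponent_le (by norm_num) (by linarith)
          _ = 16 := by norm_num
      have h5 : 1 / dist1 ((a : ℝ) / q + β - (a' : ℝ) / q') ≤ 2 * (Q0 : ℝ) ^ 2 := by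
        rw [div_le_iff₀ hd0]
        have := mul_le_mul_of_nonneg_left hdist (by positivity : (0 : ℝ) ≤ 2 * (Q0 : ℝ) ^ 2)
        rwa [mul_one_div_cancel (by positivity)] at this
      calc CV * ((psiD n hn).N : ℝ) ^ (sexp A - 1) / dist1 ((a : ℝ) / q + β - (a' : ℝ) / q')
          = CV * ((psiD n hn).N : ℝ) ^ (sexp A - 1) *
            (1 / dist1 ((a : ℝ) / q + β - (a' : ℝ) / q')) := by ring
        _ ≤ CV * (16 * (n : ℝ) ^ (sexp A - 1)) * (2 * (Q0 : ℝ) ^ 2) := by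
            refine mul_le_mul (mul_le_mul_of_nonneg_left h4 hCV.le) h5 (by positivity)
              (by positivity)
        _ = _ := by ring
    rw [norm_mul, Complex.norm_real, Real.norm_eq_abs, abs_mul, abs_of_nonneg hK0]
    calc sexp A * c0 A * |((ArithmeticFunction.moebius q' : ℤ) : ℝ) / psi2 q'| *
          ‖∑ j ∈ Finset.range (psiD n hn).N,
            (((psiD n hn).ω j * (j : ℝ) ^ (sexp A - 1) : ℝ) : ℂ) *
            e ((j : ℝ) * ((a : ℝ) / q + β - (a' : ℝ) / q'))‖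
        ≤ sexp A * c0 A * 1 * (CV * 16 * (2 * (Q0 : ℝ) ^ 2) * (n : ℝ) ^ (sexp A - 1)) := by
          refine mul_le_mul (mul_le_mul_of_nonneg_left (CirB_coef q') hK0) (h2.trans h3)
            (norm_nonneg _) (by positivity)
      _ = _ := by ring
  refine (norm_sum_le _ _).trans ((Finset.sum_le_sum hterm).trans ?_)
  rw [Finset.sum_const, nsmul_eq_mul]
  have hcard : ((P.erase p0).card : ℝ) ≤ P.card := by
    exact_mod_cast Finset.card_le_card (Finset.erase_subset _ _)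
  have hrp : (n : ℝ) ^ (sexp A) = n * (n : ℝ) ^ (sexp A - 1) := by
    rw [Real.rpow_sub_one hn0.ne']
    field_simp
  have hx0 : 0 < (n : ℝ) ^ (sexp A - 1) := Real.rpow_pos_of_pos hn0 _
  have hCn : Cc ≤ ρ * n := by
    rw [div_le_iff₀ hρ] at hnC
    linarith
  calc ((P.erase p0).card : ℝ) * (sexp A * c0 A * (CV * 16 * (2 * (Q0 : ℝ) ^ 2)) *
        (n : ℝ) ^ (sexp A - 1)) ≤ (P.card : ℝ) * (sexp A * c0 A * (CV * 16 * (2 * (Q0 : ℝ) ^ 2)) *
        (n : ℝ) ^ (sexp A - 1)) := mul_le_mul_of_nonneg_right hcard (by positivity)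
    _ = Cc * (n : ℝ) ^ (sexp A - 1) := by rw [hCc]; ring
    _ ≤ ρ * n * (n : ℝ) ^ (sexp A - 1) := mul_le_mul_of_nonneg_right hCn hx0.le
    _ = ρ * (n : ℝ) ^ (sexp A) := by rw [hrp]; ring

end Pool.Agent.W_f50700_v2
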