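import Pool.Agent.W_f50700_v2.Bil2
import Pool.Agent.W_f50700_h13.Zf2

/-!
MinB (row 461, 6.5): Theorem B2 in the form used for the mean square (from helper13's `theoremB2`).
-/

open MeasureTheory Filter Topology

namespace Pool.Agent.W_f50700_v2

open Pool.Agent.W_f50700_h3

/-- minor arcs: farther than `W/N` from all fractions with denominator at most `Q0` -/
def mset (Q0 : ℕ) (W N : ℝ) : Set ℝ :=
  {θ : ℝ | θ ∈ Set.Icc (0 : ℝ) 1 ∧ ∀ q : ℕ, 1 ≤ q → q ≤ Q0 → ∀ a : ℤ, W / N ≤ |θ - a / q|}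

theorem measurableSet_mset (Q0 : ℕ) (W N : ℝ) : MeasurableSet (mset Q0 W N) := by
  have : mset Q0 W N = Set.Icc (0 : ℝ) 1 ∩
      ⋂ q : ℕ, ⋂ (_ : 1 ≤ q), ⋂ (_ : q ≤ Q0), ⋂ a : ℤ, {θ : ℝ | W / N ≤ |θ - a / q|} := by
    ext θ
    simp [mset]
  rw [this]
  refine measurableSet_Icc.inter ?_
  refine MeasurableSet.iInter fun q => MeasurableSet.iInter fun _ => MeasurableSet.iInter fun _ =>
    MeasurableSet.iInter fun a => ?_
  exact measurableSet_le measurable_const (by fun_prop)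

theorem minor_B2 {A : ℕ} (hA : 2 ≤ A) (hs : 5 / 3 < sexp A) (ρ : ℝ) (hρ : 0 < ρ) :
    ∃ Q1 : ℕ, 1 ≤ Q1 ∧ ∀ Q0 ≥ Q1, ∃ n0 : ℕ, 1 ≤ n0 ∧ ∀ n ≥ n0, ∀ W : ℝ, (Q0 : ℝ) < W →
    ∫ θ in mset Q0 W (16 * n), ‖S4 A n θ‖ ^ 2 ≤ ρ * (n : ℝ) ^ (2 * sexp A - 1) := by
  obtain ⟨C, κ, hC, hκ, h⟩ := W_f50700_h13.theoremB2 hA hs
  have h16 : (0 : ℝ) < 16 ^ (2 * sexp A - 1) := by positivity
  -- choose `Q1` with `C Q0^(-κ) 16^(2s-1) ≤ ρ`
  have hlim : Tendsto (fun Q : ℕ => C * (Q : ℝ) ^ (-κ) * 16 ^ (2 * sexp A - 1)) atTop (𝓝 0) := by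
    have h1 : Tendsto (fun Q : ℕ => (Q : ℝ) ^ (-κ)) atTop (𝓝 0) :=
      (tendsto_rpow_neg_atTop hκ).comp tendsto_natCast_atTop_atTop
    have h2 := (h1.const_mul C).mul_const ((16 : ℝ) ^ (2 * sexp A - 1))
    simpa using h2
  obtain ⟨Q1, hQ1⟩ := ((hlim.eventually (gt_mem_nhds hρ)).exists_forall_of_atTop)
  refine ⟨max Q1 1, le_max_right _ _, fun Q0 hQ0 => ?_⟩
  have hQ0' : Q1 ≤ Q0 := (le_max_left _ _).trans hQ0
  have hQ01 : 1 ≤ Q0 := (le_max_right _ _).trans hQ0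
  obtain ⟨n1, hn1⟩ := h Q0 hQ01
  refine ⟨max n1 1, le_max_right _ _, fun n hn W hW => ?_⟩
  have hn1' : n1 ≤ n := (le_max_left _ _).trans hn
  have hn0 : (0 : ℝ) < n := by
    have : 1 ≤ n := (le_max_right _ _).trans hn
    exact_mod_cast this
  have hcont : Continuous (fun θ => ‖S4 A n θ‖ ^ 2) := (continuous_S4 A n).norm.pow 2
  have hsub : mset Q0 W (16 * n) ⊆ W_f50700_h13.minor2 Q0 n := by
    rintro θ ⟨hθ, h2⟩
    refine ⟨hθ, fun q hq hqQ a => lt_of_lt_of_le ?_ (h2 q hq hqQ a)⟩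
    exact div_lt_div_of_pos_right hW (by positivity)
  have hint : IntegrableOn (fun θ => ‖S4 A n θ‖ ^ 2) (W_f50700_h13.minor2 Q0 n) := by
    refine (hcont.integrableOn_Icc (a := (0 : ℝ)) (b := 1)).mono_set ?_
    intro θ hθ
    exact hθ.1
  calc ∫ θ in mset Q0 W (16 * n), ‖S4 A n θ‖ ^ 2
      ≤ ∫ θ in W_f50700_h13.minor2 Q0 n, ‖S4 A n θ‖ ^ 2 :=
        setIntegral_mono_set hint (Eventually.of_forall fun θ => by positivity)
          (HasSubset.Subset.eventuallyLE hsub)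
    _ ≤ C * (Q0 : ℝ) ^ (-κ) * (16 * n : ℝ) ^ (2 * sexp A - 1) := hn1 n hn1'
    _ = (C * (Q0 : ℝ) ^ (-κ) * 16 ^ (2 * sexp A - 1)) * (n : ℝ) ^ (2 * sexp A - 1) := by
        rw [Real.mul_rpow (by norm_num) hn0.le]
        ring
    _ ≤ ρ * (n : ℝ) ^ (2 * sexp A - 1) :=
        mul_le_mul_of_nonneg_right (hQ1 Q0 hQ0').le (by positivity)

end Pool.Agent.W_f50700_v2
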