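import Pool.Agent.W_f50700_v2.Maj
import Pool.Agent.W_f50700_v2.MinB
import Pool.Agent.W_f50700_h3.Concl

/-!
Msq (row 461, 6.6 end): the mean square theorem for exponents `> 5/3`.
-/

open MeasureTheory Filter Topology

namespace Pool.Agent.W_f50700_v2

open Pool.Agent.W_f50700_h3

/-- the major arcs: points of `[0,1]` within `W/N` of a reduced fraction with denominator `≤ Q0`;
their measure is at most `3 Q0^2 (2W/N)` -/
theorem measure_major (Q0 : ℕ) {W N : ℝ} (hW : 0 < W) (hN : 0 < N) :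
    (volume (Set.Icc (0 : ℝ) 1 \ mset Q0 W N)).toReal ≤ 6 * (Q0 : ℝ) ^ 2 * W / N := by
  rcases Nat.eq_zero_or_pos Q0 with h0 | h0
  · subst h0
    have h1 : Set.Icc (0 : ℝ) 1 \ mset 0 W N = ∅ := by
      ext θ
      simp only [Set.mem_sdiff, Set.mem_empty_iff_false, iff_false, not_and, not_not]
      intro hθ
      exact ⟨hθ, fun q hq hq' => by omega⟩
    rw [h1]
    simp
  have hQ1 : (1 : ℝ) ≤ Q0 := by exact_mod_cast h0
  have hWN : 0 < W / N := div_pos hW hN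
  have hfin : volume (Set.Icc (0 : ℝ) 1) ≠ ⊤ := by simp
  rcases le_or_gt (1 / 2) (W / N) with hbig | hsmall
  · have h1 : (volume (Set.Icc (0 : ℝ) 1 \ mset Q0 W N)).toReal ≤
        (volume (Set.Icc (0 : ℝ) 1)).toReal :=
      ENNReal.toReal_mono hfin (measure_mono Set.sdiff_subset)
    rw [Real.volume_Icc, sub_zero, ENNReal.toReal_ofReal zero_le_one] at h1
    have h2 : 6 * (Q0 : ℝ) ^ 2 * W / N = 6 * (Q0 : ℝ) ^ 2 * (W / N) := by ring
    rw [h2]
    nlinarith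
  · -- cover by balls
    set I : Finset (Σ _ : ℕ, ℤ) :=
      (Finset.Icc 1 Q0).sigma fun q => Finset.Ioo (-(q : ℤ)) (2 * q) with hI
    have hcov : Set.Icc (0 : ℝ) 1 \ mset Q0 W N ⊆
        ⋃ p ∈ I, Metric.ball ((p.2 : ℝ) / p.1) (W / N) := by
      rintro θ ⟨hθ, hm⟩
      have hm' : ¬ ∀ q : ℕ, 1 ≤ q → q ≤ Q0 → ∀ a : ℤ, W / N ≤ |θ - a / q| :=
        fun h => hm ⟨hθ, h⟩
      push Not at hm'
      obtain ⟨q, hq1, hq2, a, ha⟩ := hm'
      have hq0 : (0 : ℝ) < q := by exact_mod_cast hq1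
      rw [Set.mem_iUnion₂]
      refine ⟨⟨q, a⟩, ?_, ?_⟩
      · rw [hI, Finset.mem_sigma, Finset.mem_Icc, Finset.mem_Ioo]
        have h3 := abs_lt.1 (ha.trans hsmall)
        have h4 : (a : ℝ) / q < 3 / 2 := by linarith [hθ.2, h3.1]
        have h5 : -(1 / 2) < (a : ℝ) / q := by linarith [hθ.1, h3.2]
        rw [div_lt_iff₀ hq0] at h4
        rw [lt_div_iff₀ hq0] at h5
        refine ⟨⟨hq1, hq2⟩, ?_, ?_⟩
        · have : (-(q : ℝ)) < a := by linarith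
          exact_mod_cast this
        · have : (a : ℝ) < 2 * q := by linarith
          exact_mod_cast this
      · rw [Metric.mem_ball, Real.dist_eq]
        exact ha
    have h1 : volume (Set.Icc (0 : ℝ) 1 \ mset Q0 W N) ≤
        ∑ p ∈ I, volume (Metric.ball ((p.2 : ℝ) / p.1) (W / N)) :=
      (measure_mono hcov).trans (measure_biUnion_finset_le I _)
    have h2 : ∑ p ∈ I, volume (Metric.ball ((p.2 : ℝ) / p.1) (W / N)) =
        ENNReal.ofReal ((I.card : ℝ) * (2 * (W / N))) := by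
      rw [Finset.sum_congr rfl (g := fun _ => ENNReal.ofReal (2 * (W / N))) (fun p _ => by
        rw [Real.volume_ball]), Finset.sum_const, nsmul_eq_mul,
        ENNReal.ofReal_mul (Nat.cast_nonneg _), ENNReal.ofReal_natCast]
    rw [h2] at h1
    have h3 : (volume (Set.Icc (0 : ℝ) 1 \ mset Q0 W N)).toReal ≤ (I.card : ℝ) * (2 * (W / N)) :=
      ENNReal.toReal_le_of_le_ofReal (by positivity) h1
    have hcard : (I.card : ℝ) ≤ 3 * (Q0 : ℝ) ^ 2 := by
      have h4 : I.card ≤ Q0 * (3 * Q0) := by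
        rw [hI, Finset.card_sigma]
        refine (Finset.sum_le_card_nsmul _ _ (3 * Q0) fun q hq => ?_).trans (le_of_eq ?_)
        · rw [Int.card_Ioo]
          have := (Finset.mem_Icc.1 hq).2
          omega
        · rw [Nat.card_Icc, smul_eq_mul, Nat.add_sub_cancel]
      have h5 : (I.card : ℝ) ≤ ((Q0 * (3 * Q0) : ℕ) : ℝ) := by exact_mod_cast h4
      push_cast at h5
      nlinarith
    calc _ ≤ (I.card : ℝ) * (2 * (W / N)) := h3
      _ ≤ 3 * (Q0 : ℝ) ^ 2 * (2 * (W / N)) := mul_le_mul_of_nonneg_right hcard (by positivity)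
      _ = 6 * (Q0 : ℝ) ^ 2 * W / N := by ring

/-- every point of `[0,1] \ mset` is `a/q + β`, `(a,q) = 1`, `q ≤ Q0`, `|β| ≤ W/N` -/
theorem major_point {Q0 : ℕ} {W N : ℝ} {θ : ℝ} (hθ : θ ∈ Set.Icc (0 : ℝ) 1)
    (h : θ ∉ mset Q0 W N) : ∃ q : ℕ, 1 ≤ q ∧ q ≤ Q0 ∧ ∃ a : ℤ, IsCoprime a (q : ℤ) ∧
      |θ - a / q| ≤ W / N := by
  have hm' : ¬ ∀ q : ℕ, 1 ≤ q → q ≤ Q0 → ∀ a : ℤ, W / N ≤ |θ - a / q| := fun h' => h ⟨hθ, h'⟩
  push Not at hm'
  obtain ⟨q, hq1, hq2, a, ha⟩ := hm'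
  set r : ℚ := (a : ℚ) / ((q : ℤ) : ℚ) with hr
  have hdvd : ((r.den : ℕ) : ℤ) ∣ (q : ℤ) := by
    rw [hr, ← Rat.divInt_eq_div]
    exact Rat.den_dvd a q
  have hle : r.den ≤ q := Nat.le_of_dvd (by omega) (Int.natCast_dvd_natCast.1 hdvd)
  refine ⟨r.den, r.den_pos, hle.trans hq2, r.num, ?_, ?_⟩
  · rw [Int.isCoprime_iff_nat_coprime]
    simpa using r.reduced
  · have h1 : (r.num : ℝ) / (r.den : ℝ) = (a : ℝ) / q := by
      have h2 : ((r.num : ℚ) / (r.den : ℚ) : ℚ) = (a : ℚ) / (q : ℚ) := by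
        rw [Rat.num_div_den, hr]
        push_cast
        rfl
      have h3 : (((r.num : ℚ) / (r.den : ℚ) : ℚ) : ℝ) = (((a : ℚ) / (q : ℚ) : ℚ) : ℝ) := by rw [h2]
      push_cast at h3
      exact h3
    rw [h1]
    exact ha.le

theorem msq_S4 {A n : ℕ} (hn : 1 ≤ n) (θ : ℝ) : S4 A n θ = ∑ j ∈ Finset.range (16 * n),
    ((psi n j * mlt A j : ℝ) : ℂ) * e ((j : ℝ) * θ) := by
  unfold S4
  have h1 := sum_words_eq (A := A) (16 * n)
    (fun j => (psi n j : ℂ) * e (θ * (j : ℝ))) (by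
      intro j hj
      simp only [psi_zero hn (Or.inr hj.le), Complex.ofReal_zero, zero_mul])
    ((16 * n : ℕ) : ℝ) le_rfl
  rw [h1, Finset.sum_range_succ, psi_zero hn (Or.inr le_rfl)]
  simp only [Complex.ofReal_zero, zero_mul, mul_zero, add_zero]
  refine Finset.sum_congr rfl fun j _ => ?_
  rw [mul_comm θ]
  push_cast
  ring

/-- the transform of the weighted error is `S4 - Mhat` (`sum_words_eq`, Parseval) -/
theorem parseval_error {A Q0 n : ℕ} (hn : 1 ≤ n) :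
    ∑ j ∈ Finset.range (16 * n), (psi n j) ^ 2 * (mlt A j - gmod A Q0 j) ^ 2 =
      ∫ θ in (0 : ℝ)..1, ‖S4 A n θ - Mhat A Q0 (psiD n hn) θ‖ ^ 2 := by
  have h1 : ∀ θ : ℝ, S4 A n θ - Mhat A Q0 (psiD n hn) θ = ∑ j ∈ Finset.range (16 * n),
      ((psi n j * (mlt A j - gmod A Q0 j) : ℝ) : ℂ) * e ((j : ℝ) * θ) := by
    intro θ
    rw [msq_S4 hn, Mhat]
    change ∑ j ∈ Finset.range (16 * n), ((psi n j * mlt A j : ℝ) : ℂ) * e ((j : ℝ) * θ) -
      ∑ j ∈ Finset.range (16 * n), ((psi n j * gmod A Q0 j : ℝ) : ℂ) * e ((j : ℝ) * θ) = _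
    rw [← Finset.sum_sub_distrib]
    refine Finset.sum_congr rfl fun j _ => ?_
    push_cast
    ring
  rw [intervalIntegral.integral_congr (g := fun θ => ‖∑ j ∈ Finset.range (16 * n),
      ((psi n j * (mlt A j - gmod A Q0 j) : ℝ) : ℂ) * e ((j : ℝ) * θ)‖ ^ 2)
    (fun θ _ => by simp only [h1 θ]), parseval]
  refine Finset.sum_congr rfl fun j _ => ?_
  rw [Complex.norm_real, Real.norm_eq_abs, sq_abs, mul_pow]

theorem msq_Mhat_cont (A Q0 : ℕ) (D : WtData) : Continuous (Mhat A Q0 D) := by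
  unfold Mhat
  refine continuous_finsetSum _ fun j _ => continuous_const.mul ?_
  exact Pool.Agent.W_f50700_h13.continuous_e.comp (by fun_prop)

/-- the mean square on the grid.  Given `ρ`: `Q0 ≥ Q1` (`minor_B2` with `ρ/8`), `W` large depending
on `Q0` (`model_outside` with `η = W/(16n)`: `C(Q0) (16n)^(2s-1)/W ≤ ρ n^(2s-1)/8`); outside the
major arcs `|S4 - M|^2 ≤ 2|S4|^2 + 2|M|^2`; on the major arcs `S4_major`, `model_major` with `ρ'`
and `measure_major`: `(2ρ' n^s)^2 · 6 Q0^2 W/(16n)`. -/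
theorem mean_square_grid2 {A : ℕ} (hA : 2 ≤ A) (hs : 5 / 3 < sexp A) (ρ : ℝ) (hρ : 0 < ρ) :
    ∃ Q1 : ℕ, ∀ Q0 ≥ Q1, ∃ n0 : ℕ, ∀ n ≥ n0,
    ∑ j ∈ Finset.range (16 * n), (psi n j) ^ 2 * (mlt A j - gmod A Q0 j) ^ 2 ≤
      ρ * (n : ℝ) ^ (2 * sexp A - 1) := by
  have hs1 : 1 ≤ sexp A := by linarith
  have hs2 : sexp A ≤ 2 := sexp_le_two (by omega)
  obtain ⟨Q1, hQ1, hmin⟩ := minor_B2 hA hs (ρ / 8) (by positivity)
  refine ⟨Q1, fun Q0 hQ0 => ?_⟩
  obtain ⟨n1, -, hn1⟩ := hmin Q0 hQ0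
  obtain ⟨C2, hC2, hmod⟩ := model_outside hA hs1 Q0 16 (by norm_num)
  set W : ℝ := (Q0 : ℝ) + 8 * C2 * 4096 / ρ + 1 with hWdef
  have hW0 : 0 < W := by positivity
  have hWQ : (Q0 : ℝ) < W := by
    have : 0 ≤ 8 * C2 * 4096 / ρ := by positivity
    linarith
  have hWC : 8 * C2 * 4096 / ρ ≤ W := by
    have : (0 : ℝ) ≤ Q0 := Nat.cast_nonneg _
    linarith
  set ρ' : ℝ := min 1 (ρ / (6 * ((Q0 : ℝ) ^ 2 + 1) * W)) with hρ'
  have hρ'0 : 0 < ρ' := lt_min one_pos (by positivity)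
  obtain ⟨n2, hn2⟩ := S4_major hA hs1 Q0 W ρ' hW0 hρ'0
  obtain ⟨n3, hn3⟩ := model_major hA hs1 Q0 W ρ' hW0 hρ'0
  obtain ⟨n4, hn4⟩ := exists_nat_gt W
  refine ⟨max (max n1 n2) (max n3 (max n4 1)), fun n hn => ?_⟩
  have hnn1 : n1 ≤ n := ((le_max_left _ _).trans (le_max_left _ _)).trans hn
  have hnn2 : n2 ≤ n := ((le_max_right _ _).trans (le_max_left _ _)).trans hn
  have hnn3 : n3 ≤ n := ((le_max_left _ _).trans (le_max_right _ _)).trans hn
  have hnn4 : n4 ≤ n :=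
    (((le_max_left _ _).trans (le_max_right _ _)).trans (le_max_right _ _)).trans hn
  have hn1' : 1 ≤ n :=
    (((le_max_right _ _).trans (le_max_right _ _)).trans (le_max_right _ _)).trans hn
  have hnr : (0 : ℝ) < n := by exact_mod_cast hn1'
  have hWn : W < n := by
    have : (n4 : ℝ) ≤ n := by exact_mod_cast hnn4
    linarith
  set D := psiD n hn1' with hD
  have hDN : (D.N : ℝ) = 16 * n := by
    rw [hD]
    change (((16 * n : ℕ)) : ℝ) = 16 * n
    push_cast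
    ring
  set f : ℝ → ℝ := fun θ => ‖S4 A n θ - Mhat A Q0 D θ‖ ^ 2 with hf
  have hfc : Continuous f := (((continuous_S4 A n).sub (msq_Mhat_cont A Q0 D)).norm).pow 2
  rw [parseval_error hn1']
  have hIcc0 : ∫ θ in (0 : ℝ)..1, ‖S4 A n θ - Mhat A Q0 (psiD n hn1') θ‖ ^ 2 =
      ∫ θ in Set.Icc (0 : ℝ) 1, f θ := by
    rw [integral_Icc_eq_integral_Ioc, ← intervalIntegral.integral_of_le zero_le_one]
  rw [hIcc0]
  set T := mset Q0 W (16 * n) with hT
  have hTm : MeasurableSet T := measurableSet_mset Q0 W (16 * n)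
  have hTs : T ⊆ Set.Icc (0 : ℝ) 1 := fun θ hθ => hθ.1
  have hIcc : IntegrableOn f (Set.Icc (0 : ℝ) 1) := hfc.continuousOn.integrableOn_Icc
  have hsplit : ∫ θ in Set.Icc (0 : ℝ) 1, f θ = (∫ θ in T, f θ) +
      ∫ θ in Set.Icc (0 : ℝ) 1 \ T, f θ := by
    rw [setIntegral_sdiff hTm hIcc hTs]
    ring
  rw [hsplit]
  set Y : ℝ := (n : ℝ) ^ (2 * sexp A - 1) with hY
  have hY0 : 0 < Y := Real.rpow_pos_of_pos hnr _
  -- outside
  have hout : ∫ θ in T, f θ ≤ ρ / 2 * Y := by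
    have hSi : IntegrableOn (fun θ => ‖S4 A n θ‖ ^ 2) T :=
      ((((continuous_S4 A n).norm).pow 2).continuousOn.integrableOn_Icc).mono_set hTs
    have hMi : IntegrableOn (fun θ => ‖Mhat A Q0 D θ‖ ^ 2) T :=
      ((((msq_Mhat_cont A Q0 D).norm).pow 2).continuousOn.integrableOn_Icc).mono_set hTs
    have h6 : ∫ θ in T, f θ ≤ ∫ θ in T, (2 * ‖S4 A n θ‖ ^ 2 + 2 * ‖Mhat A Q0 D θ‖ ^ 2) := by
      refine setIntegral_mono (hIcc.mono_set hTs) ((hSi.const_mul 2).add (hMi.const_mul 2)) ?_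
      intro θ
      simp only [hf]
      have h7 := norm_sub_le (S4 A n θ) (Mhat A Q0 D θ)
      have h8 : ‖S4 A n θ - Mhat A Q0 D θ‖ ^ 2 ≤ (‖S4 A n θ‖ + ‖Mhat A Q0 D θ‖) ^ 2 :=
        pow_le_pow_left₀ (norm_nonneg _) h7 2
      nlinarith [sq_nonneg (‖S4 A n θ‖ - ‖Mhat A Q0 D θ‖)]
    rw [integral_add (hSi.const_mul 2) (hMi.const_mul 2), integral_const_mul,
      integral_const_mul] at h6
    have h9 : ∫ θ in T, ‖S4 A n θ‖ ^ 2 ≤ ρ / 8 * Y := hn1 n hnn1 W hWQ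
    have hη0 : 0 < W / (16 * n) := by positivity
    have hη1 : W / (16 * n) ≤ 1 / 2 := by
      rw [div_le_div_iff₀ (by positivity) (by norm_num)]
      linarith
    have h10 := hmod D rfl (W / (16 * n)) hη0 hη1 T hTm hTs (by
      intro θ hθ q hq hqQ a
      exact hθ.2 q hq hqQ a)
    rw [hDN] at h10
    have h11 : C2 * (16 * n : ℝ) ^ (2 * sexp A - 2) / (W / (16 * n)) ≤ ρ / 8 * Y := by
      have h12 : (16 * n : ℝ) ^ (2 * sexp A - 1) = (16 * n : ℝ) ^ (2 * sexp A - 2) * (16 * n) := by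
        rw [show 2 * sexp A - 1 = (2 * sexp A - 2) + 1 by ring,
          Real.rpow_add_one (by positivity)]
      have h13 : C2 * (16 * n : ℝ) ^ (2 * sexp A - 2) / (W / (16 * n)) =
          C2 / W * (16 * n : ℝ) ^ (2 * sexp A - 1) := by
        rw [h12]
        field_simp
      rw [h13, Real.mul_rpow (by norm_num) hnr.le, ← hY]
      have h14 : (16 : ℝ) ^ (2 * sexp A - 1) ≤ 4096 := by
        calc (16 : ℝ) ^ (2 * sexp A - 1) ≤ (16 : ℝ) ^ (3 : ℝ) :=
              Real.rpow_le_rpow_of_exponent_le (by norm_num) (by linarith)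
          _ = 4096 := by norm_num
      have h15 : C2 / W * 4096 ≤ ρ / 8 := by
        rw [div_le_iff₀ hρ] at hWC
        rw [div_mul_eq_mul_div, div_le_iff₀ hW0]
        linarith
      calc C2 / W * ((16 : ℝ) ^ (2 * sexp A - 1) * Y) ≤ C2 / W * (4096 * Y) := by
            refine mul_le_mul_of_nonneg_left (mul_le_mul_of_nonneg_right h14 hY0.le)
              (by positivity)
        _ = C2 / W * 4096 * Y := by ring
        _ ≤ ρ / 8 * Y := mul_le_mul_of_nonneg_right h15 hY0.le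
    linarith
  -- inside
  have hin : ∫ θ in Set.Icc (0 : ℝ) 1 \ T, f θ ≤ ρ / 4 * Y := by
    have hpt : ∀ θ ∈ Set.Icc (0 : ℝ) 1 \ T, f θ ≤ (2 * ρ' * (n : ℝ) ^ (sexp A)) ^ 2 := by
      rintro θ ⟨hθ, hθT⟩
      obtain ⟨q, hq1, hq2, a, ha, hβ⟩ := major_point hθ hθT
      have h6 := hn2 n hnn2 q hq1 hq2 a ha (θ - a / q) hβ
      have h7 := hn3 n hnn3 hn1' q hq1 hq2 a ha (θ - a / q) hβ
      rw [add_sub_cancel] at h6 h7
      have h8 : ‖S4 A n θ - Mhat A Q0 D θ‖ ≤ 2 * ρ' * (n : ℝ) ^ (sexp A) := by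
        set V : ℂ := ((((ArithmeticFunction.moebius q : ℤ) : ℝ) / psi2 q *
          (sexp A * c0 A) : ℝ) : ℂ) * Vm A n (θ - a / q) with hV
        have h9 : S4 A n θ - Mhat A Q0 D θ = (S4 A n θ - V) - (Mhat A Q0 D θ - V) := by ring
        rw [h9]
        refine (norm_sub_le _ _).trans ?_
        linarith
      exact pow_le_pow_left₀ (norm_nonneg _) h8 2
    have hfinv : volume (Set.Icc (0 : ℝ) 1 \ T) < ⊤ :=
      (measure_mono Set.sdiff_subset).trans_lt (by simp)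
    have hci : IntegrableOn (fun _ : ℝ => (2 * ρ' * (n : ℝ) ^ (sexp A)) ^ 2)
        (Set.Icc (0 : ℝ) 1 \ T) := integrableOn_const hfinv.ne
    have h6 : ∫ θ in Set.Icc (0 : ℝ) 1 \ T, f θ ≤
        ∫ _ in Set.Icc (0 : ℝ) 1 \ T, (2 * ρ' * (n : ℝ) ^ (sexp A)) ^ 2 :=
      setIntegral_mono_on (hIcc.mono_set Set.sdiff_subset) hci (measurableSet_Icc.diff hTm) hpt
    rw [setIntegral_const, smul_eq_mul] at h6
    have h7 : volume.real (Set.Icc (0 : ℝ) 1 \ T) ≤ 6 * (Q0 : ℝ) ^ 2 * W / (16 * n) :=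
      measure_major Q0 hW0 (by positivity)
    have h8 : (2 * ρ' * (n : ℝ) ^ (sexp A)) ^ 2 = 4 * ρ' ^ 2 * (Y * n) := by
      have h9 : ((n : ℝ) ^ (sexp A)) ^ 2 = Y * n := by
        rw [hY, ← Real.rpow_natCast, ← Real.rpow_mul hnr.le, ← Real.rpow_add_one hnr.ne']
        congr 1
        push_cast
        ring
      rw [mul_pow, h9]
      ring
    rw [h8] at h6
    have h9 : ρ' ^ 2 ≤ ρ / (6 * ((Q0 : ℝ) ^ 2 + 1) * W) := by
      have h10 : ρ' ≤ 1 := min_le_left _ _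
      have h11 : ρ' ≤ ρ / (6 * ((Q0 : ℝ) ^ 2 + 1) * W) := min_le_right _ _
      nlinarith
    calc ∫ θ in Set.Icc (0 : ℝ) 1 \ T, f θ
        ≤ volume.real (Set.Icc (0 : ℝ) 1 \ T) * (4 * ρ' ^ 2 * (Y * n)) := h6
      _ ≤ 6 * (Q0 : ℝ) ^ 2 * W / (16 * n) * (4 * (ρ / (6 * ((Q0 : ℝ) ^ 2 + 1) * W)) * (Y * n)) := by
          refine mul_le_mul h7 ?_ (by positivity) (by positivity)
          refine mul_le_mul_of_nonneg_right ?_ (by positivity)
          linarith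
      _ = ρ / 4 * Y * ((Q0 : ℝ) ^ 2 / ((Q0 : ℝ) ^ 2 + 1)) := by
          field_simp
          ring
      _ ≤ ρ / 4 * Y * 1 := by
          refine mul_le_mul_of_nonneg_left ?_ (by positivity)
          rw [div_le_one (by positivity)]
          linarith
      _ = ρ / 4 * Y := mul_one _
  have : 0 < ρ * Y := by positivity
  linarith

/-- covering induction: bounds on the blocks `|j - 12 n| ≤ n/8` give a bound of the partial sums -/
theorem msq_ind {d : ℕ → ℝ} (hd : ∀ j, 0 ≤ d j) {p ρ1 : ℝ} (hp : 1 ≤ p) (hρ1 : 0 ≤ ρ1) (n0 : ℕ)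
    (h : ∀ n ≥ n0, ∀ S : Finset ℕ, (∀ j ∈ S, |(j : ℝ) - 12 * n| ≤ (n : ℝ) / 8) →
      ∑ j ∈ S, d j ≤ ρ1 * (n : ℝ) ^ p) :
    ∃ K : ℝ, ∀ N : ℕ, ∑ j ∈ Finset.Icc 1 N, d j ≤ K + 8 * ρ1 * (N : ℝ) ^ p := by
  set N1 : ℕ := 12 * (max n0 96) with hN1
  refine ⟨∑ j ∈ Finset.Icc 1 N1, d j, fun N => ?_⟩
  induction N using Nat.strong_induction_on with
  | _ N ih =>
  rcases le_or_gt N N1 with hN | hN
  · have h1 : ∑ j ∈ Finset.Icc 1 N, d j ≤ ∑ j ∈ Finset.Icc 1 N1, d j :=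
      Finset.sum_le_sum_of_subset_of_nonneg (Finset.Icc_subset_Icc_right hN) fun j _ _ => hd j
    have h2 : 0 ≤ 8 * ρ1 * (N : ℝ) ^ p := by positivity
    linarith
  · set n : ℕ := N / 12 with hn
    have hn96 : 96 ≤ n := by
      have : 96 ≤ max n0 96 := le_max_right _ _
      omega
    have hnn0 : n0 ≤ n := by
      have : n0 ≤ max n0 96 := le_max_left _ _
      omega
    have hNn : 12 * n ≤ N := by omega
    have hNn' : N < 12 * n + 12 := by omega
    set M : ℕ := 12 * n - n / 8 - 1 with hM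
    have hMN : M < N := by omega
    have h1 := ih M hMN
    have hsplit : ∑ j ∈ Finset.Icc 1 N, d j = ∑ j ∈ Finset.Icc 1 M, d j +
        ∑ j ∈ Finset.Ioc M N, d j := by
      have h3 : Finset.Icc 1 N = Finset.Icc 1 M ∪ Finset.Ioc M N := by
        ext j
        simp only [Finset.mem_union, Finset.mem_Icc, Finset.mem_Ioc]
        omega
      rw [h3, Finset.sum_union]
      rw [Finset.disjoint_left]
      intro j hj hj'
      rw [Finset.mem_Icc] at hj
      rw [Finset.mem_Ioc] at hj'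
      omega
    have h2 := h n hnn0 (Finset.Ioc M N) (by
      intro j hj
      rw [Finset.mem_Ioc] at hj
      have h3 : 12 * n ≤ j + n / 8 := by omega
      have h4 : 8 * (n / 8) ≤ n := Nat.mul_div_le n 8
      have h3' : (12 : ℝ) * n ≤ j + ((n / 8 : ℕ) : ℝ) := by exact_mod_cast h3
      have h4' : (8 : ℝ) * ((n / 8 : ℕ) : ℝ) ≤ n := by exact_mod_cast h4
      have h5' : (j : ℝ) ≤ 12 * n + 12 := by exact_mod_cast (by omega : j ≤ 12 * n + 12)
      have h6' : (96 : ℝ) ≤ n := by exact_mod_cast hn96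
      rw [abs_le]
      constructor
      · linarith
      · linarith)
    rw [hsplit]
    have hN0 : (0 : ℝ) < N := by exact_mod_cast (by omega : 0 < N)
    have hMr : (M : ℝ) ≤ 95 / 96 * N := by
      have h3 : M + n / 8 + 1 = 12 * n := by omega
      have h4 : n ≤ 8 * (n / 8) + 7 := by omega
      have h3' : (M : ℝ) + ((n / 8 : ℕ) : ℝ) + 1 = 12 * n := by exact_mod_cast h3
      have h4' : (n : ℝ) ≤ 8 * ((n / 8 : ℕ) : ℝ) + 7 := by exact_mod_cast h4
      have h5' : (12 : ℝ) * n ≤ N := by exact_mod_cast hNn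
      linarith
    have hnr : (n : ℝ) ≤ 1 / 12 * N := by
      have h5' : (12 : ℝ) * n ≤ N := by exact_mod_cast hNn
      linarith
    have hp0 : 0 ≤ p := by linarith
    have h3 : (M : ℝ) ^ p ≤ 95 / 96 * (N : ℝ) ^ p := by
      calc (M : ℝ) ^ p ≤ (95 / 96 * N) ^ p := Real.rpow_le_rpow (Nat.cast_nonneg _) hMr hp0
        _ = (95 / 96 : ℝ) ^ p * (N : ℝ) ^ p := Real.mul_rpow (by norm_num) hN0.le
        _ ≤ 95 / 96 * (N : ℝ) ^ p := by
            refine mul_le_mul_of_nonneg_right ?_ (by positivity)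
            calc (95 / 96 : ℝ) ^ p ≤ (95 / 96 : ℝ) ^ (1 : ℝ) :=
                  Real.rpow_le_rpow_of_exponent_ge (by norm_num) (by norm_num) hp
              _ = 95 / 96 := Real.rpow_one _
    have h4 : (n : ℝ) ^ p ≤ 1 / 12 * (N : ℝ) ^ p := by
      calc (n : ℝ) ^ p ≤ (1 / 12 * N) ^ p := Real.rpow_le_rpow (Nat.cast_nonneg _) hnr hp0
        _ = (1 / 12 : ℝ) ^ p * (N : ℝ) ^ p := Real.mul_rpow (by norm_num) hN0.le
        _ ≤ 1 / 12 * (N : ℝ) ^ p := by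
            refine mul_le_mul_of_nonneg_right ?_ (by positivity)
            calc (1 / 12 : ℝ) ^ p ≤ (1 / 12 : ℝ) ^ (1 : ℝ) :=
                  Real.rpow_le_rpow_of_exponent_ge (by norm_num) (by norm_num) hp
              _ = 1 / 12 := Real.rpow_one _
    have h5 : 8 * ρ1 * (M : ℝ) ^ p ≤ 8 * ρ1 * (95 / 96 * (N : ℝ) ^ p) :=
      mul_le_mul_of_nonneg_left h3 (by positivity)
    have h6 : ρ1 * (n : ℝ) ^ p ≤ ρ1 * (1 / 12 * (N : ℝ) ^ p) :=
      mul_le_mul_of_nonneg_left h4 hρ1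
    linarith

/-- the mean square over `[1, N]`: `psi ≥ 1/8` on `|j - 12 n| ≤ n/8`; the intervals
`(x, (1 + 1/100) x]`, `x = N (1+1/100)^(-i)`, are inside such intervals with
`n = ⌊(1+1/200) x/12⌋` or similar for `x ≥ x0`; geometric series; the part `j ≤ x0` is bounded
(depending on `Q0`). -/
theorem mean_square2 {A : ℕ} (hA : 2 ≤ A) (hs : 5 / 3 < sexp A) : MS A := by
  intro ρ hρ
  obtain ⟨Q1, hQ1⟩ := mean_square_grid2 hA hs (ρ / 1024) (by positivity)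
  refine ⟨Q1, fun Q0 hQ0 => ?_⟩
  obtain ⟨n0, hn0⟩ := hQ1 Q0 hQ0
  have hp : 1 ≤ 2 * sexp A - 1 := by linarith
  obtain ⟨K, hK⟩ := msq_ind (d := fun j => (mlt A j - gmod A Q0 j) ^ 2) (fun j => sq_nonneg _) hp
    (ρ1 := ρ / 16) (by positivity) (max n0 1) (by
      intro n hn S hS
      have hn1 : 1 ≤ n := (le_max_right _ _).trans hn
      have hnr : (0 : ℝ) < n := by exact_mod_cast hn1
      have h1 := hn0 n ((le_max_left _ _).trans hn)
      have h2 : ∑ j ∈ S, (mlt A j - gmod A Q0 j) ^ 2 ≤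
          64 * ∑ j ∈ Finset.range (16 * n), (psi n j) ^ 2 * (mlt A j - gmod A Q0 j) ^ 2 := by
        rw [Finset.mul_sum]
        have hsub : S ⊆ Finset.range (16 * n) := by
          intro j hj
          rw [Finset.mem_range]
          have h3 := (abs_le.1 (hS j hj)).2
          have h4 : (j : ℝ) < 16 * n := by linarith
          exact_mod_cast h4
        refine (Finset.sum_le_sum fun j hj => ?_).trans
          (Finset.sum_le_sum_of_subset_of_nonneg hsub fun j _ _ => by positivity)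
        have h3 := psi_ge hn1 (hS j hj)
        have h4 : 1 / 64 ≤ (psi n j) ^ 2 := by nlinarith
        nlinarith [mul_le_mul_of_nonneg_right h4 (sq_nonneg (mlt A j - gmod A Q0 j))]
      refine h2.trans ?_
      linarith)
  obtain ⟨N1, hN1⟩ := exists_nat_gt (2 * K / ρ)
  refine ⟨max N1 1, fun N hN => ?_⟩
  have hN1' : 1 ≤ N := (le_max_right _ _).trans hN
  have hNr : (1 : ℝ) ≤ N := by exact_mod_cast hN1'
  have hNK : 2 * K / ρ ≤ N := by
    have : (N1 : ℝ) ≤ N := by exact_mod_cast (le_max_left _ _).trans hN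
    linarith
  have h1 := hK N
  have h2 : (N : ℝ) ≤ (N : ℝ) ^ (2 * sexp A - 1) := by
    calc (N : ℝ) = (N : ℝ) ^ (1 : ℝ) := (Real.rpow_one _).symm
      _ ≤ _ := Real.rpow_le_rpow_of_exponent_le hNr hp
  rw [div_le_iff₀ hρ] at hNK
  have h3 : (N : ℝ) * ρ ≤ (N : ℝ) ^ (2 * sexp A - 1) * ρ := mul_le_mul_of_nonneg_right h2 hρ.le
  linarith

end Pool.Agent.W_f50700_v2
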