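import Pool.Agent.W_f50700_h3.Expo2
import Pool.Agent.W_f50700_h3.Base2

/-!
Num5 (row 461, 6.7): `5/3 < sexp 5`.
-/

namespace Pool.Agent.W_f50700_v2

open Pool.Agent.W_f50700_h3

/-- the operator as a sum over `Fin A` -/
private theorem num5_fin {A : ℕ} (h : ℝ → ℝ) (x : ℝ) :
    ∑ a ∈ Finset.Icc 1 A, h ((a : ℝ) + x) = ∑ a : Fin A, h (((a : ℕ) : ℝ) + 1 + x) := by
  rw [Fin.sum_univ_eq_sum_range (fun a : ℕ => h ((a : ℝ) + 1 + x)) A]
  refine Finset.sum_bij' (fun a _ => a - 1) (fun a _ => a + 1) ?_ ?_ ?_ ?_ ?_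
  · intro a ha
    rw [Finset.mem_Icc] at ha
    rw [Finset.mem_range]
    omega
  · intro a ha
    rw [Finset.mem_range] at ha
    rw [Finset.mem_Icc]
    omega
  · intro a ha
    rw [Finset.mem_Icc] at ha
    show a - 1 + 1 = a
    omega
  · intro a _
    show a + 1 - 1 = a
    omega
  · intro a ha
    rw [Finset.mem_Icc] at ha
    have : ((a - 1 : ℕ) : ℝ) + 1 = (a : ℝ) := by
      have h2 : a - 1 + 1 = a := by omega
      exact_mod_cast h2
    rw [this]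

/-- two steps of the operator as a sum over letters -/
private theorem num5_two {A : ℕ} {s ε : ℝ} (hε : 0 < ε) (f : ℝ → ℝ)
    (hL : ∀ x ∈ Set.Icc (0 : ℝ) 1, (1 + ε) * f x ≤
      ∑ a ∈ Finset.Icc 1 A, ((a : ℝ) + x) ^ (-s) * f (1 / ((a : ℝ) + x)))
    {x : ℝ} (hx : x ∈ Set.Icc (0 : ℝ) 1) :
    (1 + ε) ^ 2 * f x ≤ ∑ g : Lt A, (cpsi [g] x) ^ (-s) * f (cact [g] x) := by
  have hL' : ∀ x ∈ Set.Icc (0 : ℝ) 1, (1 + ε) * f x ≤
      ∑ a : Fin A, (((a : ℕ) : ℝ) + 1 + x) ^ (-s) * f (1 / (((a : ℕ) : ℝ) + 1 + x)) := by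
    intro x hx
    exact (hL x hx).trans (le_of_eq (num5_fin (fun y => y ^ (-s) * f (1 / y)) x))
  have h1 : (1 + ε) ^ 2 * f x ≤ ∑ b : Fin A, (((b : ℕ) : ℝ) + 1 + x) ^ (-s) *
      ∑ a : Fin A, (((a : ℕ) : ℝ) + 1 + 1 / (((b : ℕ) : ℝ) + 1 + x)) ^ (-s) *
        f (1 / (((a : ℕ) : ℝ) + 1 + 1 / (((b : ℕ) : ℝ) + 1 + x))) := by
    calc (1 + ε) ^ 2 * f x = (1 + ε) * ((1 + ε) * f x) := by ring
      _ ≤ (1 + ε) * ∑ b : Fin A, (((b : ℕ) : ℝ) + 1 + x) ^ (-s) *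
            f (1 / (((b : ℕ) : ℝ) + 1 + x)) :=
          mul_le_mul_of_nonneg_left (hL' x hx) (by linarith)
      _ = ∑ b : Fin A, (((b : ℕ) : ℝ) + 1 + x) ^ (-s) *
            ((1 + ε) * f (1 / (((b : ℕ) : ℝ) + 1 + x))) := by
          rw [Finset.mul_sum]
          exact Finset.sum_congr rfl fun b _ => by ring
      _ ≤ _ := by
          refine Finset.sum_le_sum fun b _ => ?_
          have hb : (0 : ℝ) ≤ ((b : ℕ) : ℝ) := Nat.cast_nonneg _
          have hpos : (0 : ℝ) < ((b : ℕ) : ℝ) + 1 + x := by linarith [hx.1]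
          refine mul_le_mul_of_nonneg_left (hL' _ ⟨by positivity, ?_⟩)
            (Real.rpow_pos_of_pos hpos _).le
          rw [div_le_one hpos]
          linarith [hx.1]
  refine h1.trans (le_of_eq ?_)
  rw [Fintype.sum_prod_type_right]
  refine Finset.sum_congr rfl fun b _ => ?_
  rw [Finset.mul_sum]
  refine Finset.sum_congr rfl fun a _ => ?_
  have hb : (0 : ℝ) ≤ ((b : ℕ) : ℝ) := Nat.cast_nonneg _
  have ha : (0 : ℝ) ≤ ((a : ℕ) : ℝ) := Nat.cast_nonneg _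
  have hpos : (0 : ℝ) < ((b : ℕ) : ℝ) + 1 + x := by linarith [hx.1]
  have hpos2 : (0 : ℝ) < ((a : ℕ) : ℝ) + 1 + 1 / (((b : ℕ) : ℝ) + 1 + x) := by positivity
  have e1 : cpsi [((a, b) : Lt A)] x =
      (((b : ℕ) : ℝ) + 1 + x) * (((a : ℕ) : ℝ) + 1 + 1 / (((b : ℕ) : ℝ) + 1 + x)) := by
    unfold cpsi
    rw [F_single, m12_single]
    push_cast
    field_simp
    ring
  have e2 : cact [((a, b) : Lt A)] x = 1 / (((a : ℕ) : ℝ) + 1 + 1 / (((b : ℕ) : ℝ) + 1 + x)) := by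
    have h3 : cact [((a, b) : Lt A)] x = (((b : ℕ) : ℝ) + 1 + x) / cpsi [((a, b) : Lt A)] x := by
      unfold cact cpsi
      rw [F_single, m12_single, m21_single, m22_single]
      push_cast
      ring_nf
    rw [h3, e1]
    field_simp
  rw [e1, e2, Real.mul_rpow hpos.le hpos2.le]
  ring

/-- words of length `n + 1` -/
private theorem num5_succ {A n : ℕ} (h : List (Lt A) → ℝ) :
    ∑ w : Fin (n + 1) → Lt A, h (List.ofFn w) =
      ∑ w : Fin n → Lt A, ∑ g : Lt A, h ([g] ++ List.ofFn w) := by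
  rw [Finset.sum_comm, ← Fintype.sum_prod_type', ← Equiv.sum_comp (Fin.consEquiv fun _ => Lt A)]
  refine Finset.sum_congr rfl fun p _ => ?_
  rw [List.ofFn_succ]
  rfl

private theorem num5_iter {A : ℕ} {s ε : ℝ} (hε : 0 < ε) (f : ℝ → ℝ)
    (hL : ∀ x ∈ Set.Icc (0 : ℝ) 1, (1 + ε) * f x ≤
      ∑ a ∈ Finset.Icc 1 A, ((a : ℝ) + x) ^ (-s) * f (1 / ((a : ℝ) + x)))
    {x : ℝ} (hx : x ∈ Set.Icc (0 : ℝ) 1) (n : ℕ) :
    ((1 + ε) ^ 2) ^ n * f x ≤
      ∑ w : Fin n → Lt A, (cpsi (List.ofFn w) x) ^ (-s) * f (cact (List.ofFn w) x) := by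
  induction n with
  | zero =>
    rw [Fintype.sum_unique]
    simp [cpsi, cact]
  | succ n ih =>
    rw [num5_succ (fun w => (cpsi w x) ^ (-s) * f (cact w x))]
    calc ((1 + ε) ^ 2) ^ (n + 1) * f x = (1 + ε) ^ 2 * (((1 + ε) ^ 2) ^ n * f x) := by ring
      _ ≤ (1 + ε) ^ 2 * ∑ w : Fin n → Lt A, (cpsi (List.ofFn w) x) ^ (-s) *
            f (cact (List.ofFn w) x) := mul_le_mul_of_nonneg_left ih (by positivity)
      _ = ∑ w : Fin n → Lt A, (cpsi (List.ofFn w) x) ^ (-s) *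
            ((1 + ε) ^ 2 * f (cact (List.ofFn w) x)) := by
          rw [Finset.mul_sum]
          exact Finset.sum_congr rfl fun w _ => by ring
      _ ≤ _ := by
          refine Finset.sum_le_sum fun w _ => ?_
          have h1 := num5_two hε f hL (cact_mem (List.ofFn w) hx)
          have h2 : 0 ≤ (cpsi (List.ofFn w) x) ^ (-s) :=
            (Real.rpow_pos_of_pos (cpsi_pos _ hx.1) _).le
          refine (mul_le_mul_of_nonneg_left h1 h2).trans (le_of_eq ?_)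
          rw [Finset.mul_sum]
          refine Finset.sum_congr rfl fun g _ => ?_
          rw [cpsi_append _ _ hx.1, cact_append _ _ hx.1,
            Real.mul_rpow (cpsi_pos _ (Base2_cact_nonneg _ hx.1)).le (cpsi_pos _ hx.1).le]
          ring

/-- abstract criterion: a positive bounded function with `L f ≥ (1+ε) f` for the one step operator
`L f (x) = ∑_{a=1}^{A} (a+x)^(-s) f(1/(a+x))` forces `s < sexp A`. -/
theorem lt_sexp_of_sub {A : ℕ} (hA : 1 ≤ A) {s ε M : ℝ} (hs : 0 ≤ s) (hε : 0 < ε) (f : ℝ → ℝ)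
    (hf0 : ∀ x ∈ Set.Icc (0 : ℝ) 1, 0 < f x) (hfM : ∀ x ∈ Set.Icc (0 : ℝ) 1, f x ≤ M)
    (hL : ∀ x ∈ Set.Icc (0 : ℝ) 1, (1 + ε) * f x ≤
      ∑ a ∈ Finset.Icc 1 A, ((a : ℝ) + x) ^ (-s) * f (1 / ((a : ℝ) + x))) :
    s < sexp A := by
  by_contra hcon
  rw [not_lt] at hcon
  have h0 : (0 : ℝ) ∈ Set.Icc (0 : ℝ) 1 := ⟨le_refl _, zero_le_one⟩
  have hM : 0 < M := (hf0 0 h0).trans_le (hfM 0 h0)
  have key : ∀ n : ℕ, ((1 + ε) ^ 2) ^ n * f 0 ≤ (2 : ℝ) ^ (sexp A) * M := by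
    intro n
    calc ((1 + ε) ^ 2) ^ n * f 0
        ≤ ∑ w : Fin n → Lt A, (cpsi (List.ofFn w) 0) ^ (-s) * f (cact (List.ofFn w) 0) :=
          num5_iter hε f hL h0 n
      _ ≤ ∑ w : Fin n → Lt A, ((F (List.ofFn w) : ℕ) : ℝ) ^ (-s) * M := by
          refine Finset.sum_le_sum fun w _ => ?_
          rw [cpsi_zero]
          exact mul_le_mul_of_nonneg_left (hfM _ (cact_mem _ h0))
            (Real.rpow_pos_of_pos (expo1_F_pos _) _).le
      _ = asum A s n * M := by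
          rw [asum, Finset.sum_mul]
      _ ≤ asum A (sexp A) n * M := mul_le_mul_of_nonneg_right (asum_anti hcon n) hM.le
      _ ≤ _ := mul_le_mul_of_nonneg_right (asum_le_two hA n) hM.le
  have h1 : 1 < (1 + ε) ^ 2 := by nlinarith
  obtain ⟨n, hn⟩ := pow_unbounded_of_one_lt ((2 : ℝ) ^ (sexp A) * M / f 0) h1
  rw [div_lt_iff₀ (hf0 0 h0)] at hn
  exact absurd (key n) (not_le.2 hn)

end Pool.Agent.W_f50700_v2
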